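import Pool.Agent.Run7.h307.WM.Dim

/-!
# The generic operator `N₂ + c N₁`
-/

set_option autoImplicit false

namespace Run7.h307.WM

open Module Pool.Agent.Y143 Pool.Agent.N184.HP Pool.Agent.N184.HK

section

variable {Ω V : Type} [Field Ω] [AddCommGroup V] [Module Ω V]

/-- The coefficients of `(N₂ + X N₁) ^ a`. -/
def cf (N₁ N₂ : Module.End Ω V) : ℕ → ℕ → Module.End Ω V
  | 0, 0 => 1
  | 0, _ + 1 => 0
  | a + 1, 0 => N₂ * cf N₁ N₂ a 0
  | a + 1, k + 1 => N₂ * cf N₁ N₂ a (k + 1) + N₁ * cf N₁ N₂ a k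

variable (N₁ N₂ : Module.End Ω V)

lemma cf_zero (a : ℕ) : ∀ k, a < k → cf N₁ N₂ a k = 0 := by
  induction a with
  | zero =>
    intro k hk
    obtain ⟨k, rfl⟩ := Nat.exists_eq_succ_of_ne_zero (by omega : k ≠ 0)
    rfl
  | succ a ih =>
    intro k hk
    obtain ⟨k, rfl⟩ := Nat.exists_eq_succ_of_ne_zero (by omega : k ≠ 0)
    rw [Nat.succ_eq_add_one, cf, ih _ (by omega), ih _ (by omega), mul_zero, mul_zero, add_zero]

lemma pow_eq (c : Ω) (a : ℕ) : ∀ m, a < m →
    (N₂ + c • N₁) ^ a = ∑ k ∈ Finset.range m, c ^ k • cf N₁ N₂ a k := by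
  induction a with
  | zero =>
    intro m hm
    obtain ⟨m, rfl⟩ := Nat.exists_eq_succ_of_ne_zero (by omega : m ≠ 0)
    rw [Finset.sum_range_succ', Finset.sum_eq_zero]
    · simp [cf]
    · intro k _
      rw [cf, smul_zero]
  | succ a ih =>
    intro m hm
    obtain ⟨m, rfl⟩ := Nat.exists_eq_succ_of_ne_zero (by omega : m ≠ 0)
    rw [Finset.sum_range_succ', pow_succ', add_mul]
    have h1 : N₂ * (N₂ + c • N₁) ^ a = (∑ k ∈ Finset.range m, c ^ (k + 1) • (N₂ * cf N₁ N₂ a (k + 1)))
        + c ^ 0 • (N₂ * cf N₁ N₂ a 0) := by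
      rw [ih (m + 1) (by omega), Finset.sum_range_succ', mul_add, Finset.mul_sum]
      simp only [mul_smul_comm]
    have h2 : c • N₁ * (N₂ + c • N₁) ^ a = ∑ k ∈ Finset.range m, c ^ (k + 1) • (N₁ * cf N₁ N₂ a k) := by
      rw [ih m (by omega), Finset.mul_sum]
      refine Finset.sum_congr rfl fun k _ => ?_
      rw [smul_mul_assoc, mul_smul_comm, smul_smul, pow_succ']
    rw [h1, h2]
    simp only [cf, smul_add, Finset.sum_add_distrib]
    abel

lemma TT_pow_neg (a : ℕ) {x : ℤ → V} (hx : ∀ m < 0, x m = 0) :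
    ∀ m < 0, (TT N₁ N₂ ^ a) x m = 0 := by
  induction a with
  | zero => simpa using hx
  | succ a ih =>
    intro m hm
    rw [pow_succ', Module.End.mul_apply]
    change N₂ ((TT N₁ N₂ ^ a) x m) + N₁ ((TT N₁ N₂ ^ a) x (m - 1)) = 0
    rw [ih m hm, ih (m - 1) (by omega), map_zero, map_zero, add_zero]

lemma TT_pow (a : ℕ) {x : ℤ → V} (hx : ∀ m < 0, x m = 0) :
    ∀ m : ℕ, (TT N₁ N₂ ^ a) x m =
      ∑ p ∈ Finset.HasAntidiagonal.antidiagonal m, cf N₁ N₂ a p.1 (x p.2) := by
  induction a with
  | zero =>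
    intro m
    rw [pow_zero, Module.End.one_apply, Finset.sum_eq_single (0, m)]
    · rfl
    · rintro ⟨k, l⟩ h1 h2
      have hk : k ≠ 0 := by
        rintro rfl
        apply h2
        rw [Finset.HasAntidiagonal.mem_antidiagonal] at h1
        simp only [zero_add] at h1
        rw [h1]
      obtain ⟨k, rfl⟩ := Nat.exists_eq_succ_of_ne_zero hk
      rfl
    · intro h
      exact absurd (by simp) h
  | succ a ih =>
    intro m
    rw [pow_succ', Module.End.mul_apply]
    change N₂ ((TT N₁ N₂ ^ a) x m) + N₁ ((TT N₁ N₂ ^ a) x (m - 1)) = _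
    rw [ih]
    cases m with
    | zero =>
      rw [TT_pow_neg N₁ N₂ a hx _ (by simp), map_zero, add_zero]
      simp [cf]
    | succ m =>
      rw [show ((m + 1 : ℕ) : ℤ) - 1 = (m : ℕ) by push_cast; ring, ih,
        Finset.Nat.sum_antidiagonal_succ, Finset.Nat.sum_antidiagonal_succ, map_add, map_sum,
        map_sum]
      simp only [cf, LinearMap.add_apply, Module.End.mul_apply, Finset.sum_add_distrib]
      abel

end

variable {Ω V : Type} [Field Ω] [CharZero Ω] [AddCommGroup V] [Module Ω V]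

lemma cf_WS {q : ℕ} (hq : 1 < q) {Φ N₁ N₂ : Module.End Ω V}
    (t1 : ∀ x, N₁ (Φ x) = (q : Ω) • Φ (N₁ x)) (t2 : ∀ x, N₂ (Φ x) = (q : Ω) • Φ (N₂ x)) (a : ℕ) :
    ∀ (k : ℕ) (v w : ℤ) (_ : w = v - 2 * a) (x : V), x ∈ WS q Φ v → cf N₁ N₂ a k x ∈ WS q Φ w := by
  have s1 : ∀ (v w : ℤ) (_ : w = v - 2) (x : V), x ∈ WS q Φ v → N₁ x ∈ WS q Φ w := by
    intro v w h x hx
    have := N_pow_WS hq t1 1 (w' := w) (by omega) hx
    rwa [pow_one] at this
  have s2 : ∀ (v w : ℤ) (_ : w = v - 2) (x : V), x ∈ WS q Φ v → N₂ x ∈ WS q Φ w := by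
    intro v w h x hx
    have := N_pow_WS hq t2 1 (w' := w) (by omega) hx
    rwa [pow_one] at this
  induction a with
  | zero =>
    intro k v w h x hx
    cases k with
    | zero =>
      have : w = v := by simpa using h
      rw [this]
      exact hx
    | succ k => exact zero_mem _
  | succ a ih =>
    intro k v w h x hx
    push_cast at h
    cases k with
    | zero => exact s2 (v - 2 * a) w (by omega) _ (ih 0 v _ rfl x hx)
    | succ k =>
      exact Submodule.add_mem _ (s2 (v - 2 * a) w (by omega) _ (ih (k + 1) v _ rfl x hx))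
        (s1 (v - 2 * a) w (by omega) _ (ih k v _ rfl x hx))

namespace Hyp

variable {q : ℕ} {n : ℤ} {Φ N₁ N₂ : Module.End Ω V} {M : ℤ → Submodule Ω V}
  (H : Hyp q n Φ N₁ N₂ M)

include H

open Polynomial in
/-- For almost all `c`, `(N₂ + c N₁) ^ a` is an isomorphism between the parts of weight `n + a` and
`n - a`. -/
theorem generic [IsAlgClosed Ω] [FiniteDimensional Ω V] (a : ℕ) :
    ∃ S : Set Ω, S.Finite ∧ ∀ c : Ω, c ∉ S → Set.BijOn (⇑((N₂ + c • N₁) ^ a))
      (WS q Φ (n + a) : Set V) (WS q Φ (n - a) : Set V) := by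
  classical
  obtain ⟨d, hd⟩ : ∃ d, finrank Ω (WS q Φ (n + a) : Submodule Ω V) = d := ⟨_, rfl⟩
  have hd' : finrank Ω (WS q Φ (n - a) : Submodule Ω V) = d := by rw [← H.finrank_eq a, hd]
  let b := Module.finBasisOfFinrankEq Ω (WS q Φ (n + a) : Submodule Ω V) hd
  let b' := Module.finBasisOfFinrankEq Ω (WS q Φ (n - a) : Submodule Ω V) hd'
  have hcf : ∀ k, ∀ x ∈ (WS q Φ (n + a) : Submodule Ω V), cf N₁ N₂ a k x ∈ WS q Φ (n - a) :=
    fun k x hx => cf_WS H.hq H.t1 H.t2 a k (n + a) (n - a) (by ring) x hx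
  let R : ℕ → (WS q Φ (n + a) : Submodule Ω V) →ₗ[Ω] (WS q Φ (n - a) : Submodule Ω V) :=
    fun k => (cf N₁ N₂ a k).restrict (hcf k)
  let Rm : ℕ → Matrix (Fin d) (Fin d) Ω := fun k => LinearMap.toMatrix b b' (R k)
  let P : Matrix (Fin d) (Fin d) (Polynomial Ω) := Matrix.of fun i j =>
    ∑ k ∈ Finset.range (a + 1), monomial k (Rm k i j)
  have hPc : ∀ i j k, (P i j).coeff k = Rm k i j := by
    intro i j k
    change (∑ k ∈ Finset.range (a + 1), monomial k (Rm k i j)).coeff k = _
    rw [finsetSum_coeff]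
    simp only [coeff_monomial]
    rw [Finset.sum_ite_eq']
    by_cases hk : k ∈ Finset.range (a + 1)
    · rw [if_pos hk]
    · rw [if_neg hk]
      have : R k = 0 := by
        apply LinearMap.ext
        intro x
        apply Subtype.ext
        change cf N₁ N₂ a k x = 0
        rw [cf_zero N₁ N₂ a k (by rw [Finset.mem_range] at hk; omega)]
        rfl
      change _ = LinearMap.toMatrix b b' (R k) i j
      rw [this, map_zero, Matrix.zero_apply]
  have hPe : ∀ (c : Ω) i j, (P i j).eval c = ∑ k ∈ Finset.range (a + 1), Rm k i j * c ^ k := by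
    intro c i j
    change (∑ k ∈ Finset.range (a + 1), monomial k (Rm k i j)).eval c = _
    rw [eval_finsetSum]
    simp only [eval_monomial]
  -- the determinant is not zero
  have hdet : P.det ≠ 0 := by
    intro h0
    obtain ⟨v, hv0, hv⟩ := Matrix.exists_mulVec_eq_zero_iff.2 h0
    apply hv0
    let x : ℤ → V := fun m => if 0 ≤ m then ∑ j, (v j).coeff m.toNat • (b j : V) else 0
    have hx : ∀ m : ℕ, x m = ∑ j, (v j).coeff m • (b j : V) := by
      intro m
      have : x m = ∑ j, (v j).coeff (m : ℤ).toNat • (b j : V) := if_pos (by omega)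
      rw [this, Int.toNat_natCast]
    have hxneg : ∀ m < 0, x m = 0 := fun m hm => if_neg (by omega)
    have hxK : ∀ m, ((Finset.univ.sup fun j => (v j).natDegree : ℕ) : ℤ) < m → x m = 0 := by
      intro m hm
      obtain ⟨k, rfl⟩ := Int.eq_ofNat_of_zero_le (show 0 ≤ m by omega)
      rw [hx]
      refine Finset.sum_eq_zero fun j _ => ?_
      rw [coeff_eq_zero_of_natDegree_lt, zero_smul]
      have h1 : (v j).natDegree ≤ Finset.univ.sup fun j => (v j).natDegree :=
        Finset.le_sup (f := fun j => (v j).natDegree) (Finset.mem_univ j)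
      omega
    have hxw : ∀ m, x m ∈ WS q Φ (n + a) := by
      intro m
      by_cases hm : 0 ≤ m
      · obtain ⟨k, rfl⟩ := Int.eq_ofNat_of_zero_le hm
        rw [hx]
        exact Submodule.sum_mem _ fun j _ => Submodule.smul_mem _ _ (b j).2
      · rw [hxneg m (by omega)]
        exact zero_mem _
    have hT : (TT N₁ N₂ ^ a) x = 0 := by
      funext m
      by_cases hm : m < 0
      · rw [TT_pow_neg N₁ N₂ a hxneg m hm]; rfl
      · obtain ⟨m, rfl⟩ := Int.eq_ofNat_of_zero_le (show 0 ≤ m by omega)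
        rw [TT_pow N₁ N₂ a hxneg]
        have h1 : ∀ k l : ℕ, cf N₁ N₂ a k (x l) =
            ∑ i, (∑ j, Rm k i j * (v j).coeff l) • (b' i : V) := by
          intro k l
          rw [hx, map_sum]
          have h2 : ∀ j, cf N₁ N₂ a k ((v j).coeff l • (b j : V)) =
              ∑ i, (Rm k i j * (v j).coeff l) • (b' i : V) := by
            intro j
            rw [map_smul]
            have h3 : R k (b j) = ∑ i, Rm k i j • b' i := by
              rw [← b'.sum_repr (R k (b j))]
              refine Finset.sum_congr rfl fun i _ => ?_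
              change _ = LinearMap.toMatrix b b' (R k) i j • b' i
              rw [LinearMap.toMatrix_apply]
            have h4 : cf N₁ N₂ a k (b j : V) = ∑ i, Rm k i j • (b' i : V) := by
              have := congrArg Subtype.val h3
              rw [AddSubmonoidClass.coe_finsetSum] at this
              exact this
            rw [h4, Finset.smul_sum]
            refine Finset.sum_congr rfl fun i _ => ?_
            rw [smul_smul, mul_comm]
          rw [Finset.sum_congr rfl fun j _ => h2 j, Finset.sum_comm]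
          refine Finset.sum_congr rfl fun i _ => ?_
          rw [Finset.sum_smul]
        rw [Finset.sum_congr rfl fun p _ => h1 p.1 p.2, Finset.sum_comm]
        have h5 : ∀ i, ∑ p ∈ Finset.HasAntidiagonal.antidiagonal m, (∑ j, Rm p.1 i j * (v j).coeff p.2) = 0 := by
          intro i
          have h6 := congrArg (fun f => (f i).coeff m) hv
          simp only [Pi.zero_apply, coeff_zero] at h6
          rw [Matrix.mulVec, dotProduct, finsetSum_coeff] at h6
          rw [Finset.sum_comm, ← h6]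
          refine Finset.sum_congr rfl fun j _ => ?_
          rw [coeff_mul]
          refine Finset.sum_congr rfl fun p _ => ?_
          rw [hPc]
        rw [Finset.sum_eq_zero]
        · rfl
        · intro i _
          rw [← Finset.sum_smul, h5, zero_smul]
    have hx00 := H.seq_inj a hxneg hxK hxw hT
    funext j
    apply Polynomial.ext
    intro m
    have h7 : ∑ j, (v j).coeff m • b j = 0 := by
      apply Subtype.ext
      rw [AddSubmonoidClass.coe_finsetSum]
      change ∑ j, (v j).coeff m • (b j : V) = 0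
      rw [← hx, hx00]
      rfl
    exact (Fintype.linearIndependent_iff.1 b.linearIndependent _ h7 j)
  -- the roots of the determinant
  refine ⟨(P.det.roots.toFinset : Set Ω), Finset.finite_toSet _, fun c hc => ?_⟩
  have hne : P.det.eval c ≠ 0 := by
    intro h
    apply hc
    rw [Finset.mem_coe, Multiset.mem_toFinset, mem_roots hdet]
    exact h
  have tc : ∀ x, (N₂ + c • N₁) (Φ x) = (q : Ω) • Φ ((N₂ + c • N₁) x) := by
    intro x
    simp only [LinearMap.add_apply, LinearMap.smul_apply, H.t1, H.t2, map_add, map_smul, smul_add]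
    rw [smul_comm]
  have hmaps : ∀ x ∈ (WS q Φ (n + a) : Submodule Ω V),
      ((N₂ + c • N₁) ^ a) x ∈ WS q Φ (n - a) := fun x hx =>
    N_pow_WS H.hq tc a (by ring) hx
  let A : (WS q Φ (n + a) : Submodule Ω V) →ₗ[Ω] (WS q Φ (n - a) : Submodule Ω V) :=
    ((N₂ + c • N₁) ^ a).restrict hmaps
  have hA : A = ∑ k ∈ Finset.range (a + 1), c ^ k • R k := by
    apply LinearMap.ext
    intro x
    apply Subtype.ext
    change ((N₂ + c • N₁) ^ a) x = _
    rw [pow_eq N₁ N₂ c a (a + 1) (by omega), LinearMap.sum_apply, LinearMap.sum_apply,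
      AddSubmonoidClass.coe_finsetSum]
    rfl
  have hmat : LinearMap.toMatrix b b' A = (evalRingHom c).mapMatrix P := by
    ext i j
    rw [hA, map_sum, RingHom.mapMatrix_apply, Matrix.map_apply, coe_evalRingHom, hPe,
      Matrix.sum_apply]
    refine Finset.sum_congr rfl fun k _ => ?_
    rw [map_smul, Matrix.smul_apply, smul_eq_mul, mul_comm]
  have hinj : Function.Injective A := by
    rw [← LinearMap.ker_eq_bot, LinearMap.ker_eq_bot']
    intro x hx
    have h1 : (LinearMap.toMatrix b b' A).mulVec (b.repr x) = 0 := by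
      rw [LinearMap.toMatrix_mulVec_repr, hx, map_zero]
      rfl
    have h2 : (LinearMap.toMatrix b b' A).det ≠ 0 := by
      rw [hmat, ← RingHom.map_det]
      exact hne
    have h3 := Matrix.eq_zero_of_mulVec_eq_zero h2 h1
    apply b.repr.injective
    apply Finsupp.ext
    intro i
    rw [map_zero]
    exact congrFun h3 i
  have hsurj : Function.Surjective A :=
    (LinearMap.injective_iff_surjective_of_finrank_eq_finrank (by rw [hd, hd'])).1 hinj
  refine ⟨fun x hx => hmaps x hx, fun x hx y hy hxy => ?_, fun y hy => ?_⟩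
  · have : (⟨x, hx⟩ : (WS q Φ (n + a) : Submodule Ω V)) = ⟨y, hy⟩ := hinj (Subtype.ext hxy)
    exact congrArg Subtype.val this
  · obtain ⟨x, hx⟩ := hsurj ⟨y, hy⟩
    exact ⟨x, x.2, congrArg Subtype.val hx⟩

end Hyp

end Run7.h307.WM
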