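import Pool.Agent.Run7.h307.WM.Seq

/-!
# The parts of weight `n + a` and `n - a` have the same dimension
-/

set_option autoImplicit false

namespace Run7.h307.WM

open Module Pool.Agent.Y143 Pool.Agent.N184.HP Pool.Agent.N184.HK

section

variable {Ω V : Type} [Field Ω] [AddCommGroup V] [Module Ω V] [FiniteDimensional Ω V]

/-- An isomorphism of subquotients preserves the dimensions. -/
lemma dim_step {A A' B B' : Submodule Ω V} (hA : A' ≤ A) (hB : B' ≤ B) (f : Module.End Ω V)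
    (h1 : ∀ x ∈ A, f x ∈ B) (h2 : ∀ x ∈ A', f x ∈ B') (h3 : ∀ x ∈ A, f x ∈ B' → x ∈ A')
    (h4 : ∀ y ∈ B, ∃ x ∈ A, y - f x ∈ B') :
    (finrank Ω A : ℤ) - finrank Ω A' = finrank Ω B - finrank Ω B' := by
  let g : A →ₗ[Ω] (B ⧸ B'.comap B.subtype) :=
    (B'.comap B.subtype).mkQ ∘ₗ (f.restrict h1)
  have hker : LinearMap.ker g = A'.comap A.subtype := by
    ext x
    rw [LinearMap.mem_ker]
    change Submodule.Quotient.mk (f.restrict h1 x) = 0 ↔ _
    rw [Submodule.Quotient.mk_eq_zero]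
    exact ⟨fun h => h3 _ x.2 h, fun h => h2 _ h⟩
  have hrange : LinearMap.range g = ⊤ := by
    rw [LinearMap.range_eq_top]
    intro y
    obtain ⟨y, rfl⟩ := Submodule.Quotient.mk_surjective _ y
    obtain ⟨x, hx, hxy⟩ := h4 y y.2
    refine ⟨⟨x, hx⟩, ?_⟩
    change Submodule.Quotient.mk (f.restrict h1 ⟨x, hx⟩) = _
    rw [← sub_eq_zero, ← Submodule.Quotient.mk_sub, Submodule.Quotient.mk_eq_zero]
    have := neg_mem hxy
    rw [neg_sub] at this
    exact this
  have e1 := LinearMap.finrank_range_add_finrank_ker g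
  rw [hrange, hker, finrank_top] at e1
  have e2 := Submodule.finrank_quotient_add_finrank (B'.comap B.subtype)
  have e3 : finrank Ω (A'.comap A.subtype) = finrank Ω A' :=
    (Submodule.comapSubtypeEquivOfLe hA).finrank_eq
  have e4 : finrank Ω (B'.comap B.subtype) = finrank Ω B' :=
    (Submodule.comapSubtypeEquivOfLe hB).finrank_eq
  omega

end

variable {Ω V : Type} [Field Ω] [CharZero Ω] [AddCommGroup V] [Module Ω V]
  [FiniteDimensional Ω V]

namespace Hyp

variable {q : ℕ} {n : ℤ} {Φ N₁ N₂ : Module.End Ω V} {M : ℤ → Submodule Ω V}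
  (H : Hyp q n Φ N₁ N₂ M)

omit [FiniteDimensional Ω V] in
include H in
lemma hst (k : ℕ) : ∀ (a : ℤ) (x : V), x ∈ M a → (N₂ ^ k) x ∈ M a := by
  induction k with
  | zero => intro a x hx; simpa using hx
  | succ k ih =>
    intro a x hx
    rw [pow_succ, Module.End.mul_apply]
    exact ih _ _ (H.stab2 _ _ hx)

variable (q Φ M) in
/-- the dimension of the part of weight `v` of the graded piece of degree `j` -/
noncomputable def dd (j v : ℤ) : ℤ :=
  (finrank Ω (M j ⊓ WS q Φ v : Submodule Ω V) : ℤ) -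
    finrank Ω (M (j - 1) ⊓ WS q Φ v : Submodule Ω V)

include H in
lemma dd1 [IsAlgClosed Ω] (j : ℕ) (v : ℤ) : dd q Φ M j v = dd q Φ M (-j) (v - 2 * j) := by
  unfold dd
  apply dim_step (inf_le_inf_right _ (H.mon.mono (by omega)))
    (inf_le_inf_right _ (H.mon.mono (by omega))) (N₁ ^ j)
  · rintro x ⟨hx, hxw⟩
    refine ⟨?_, N_pow_WS H.hq H.t1 j rfl hxw⟩
    have := map_pow_fil H.mon.map j _ _ hx
    rwa [show (j : ℤ) - 2 * j = -j by ring] at this
  · rintro x ⟨hx, hxw⟩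
    refine ⟨?_, N_pow_WS H.hq H.t1 j rfl hxw⟩
    have := map_pow_fil H.mon.map j _ _ hx
    rwa [show (j : ℤ) - 1 - 2 * j = -j - 1 by ring] at this
  · rintro x ⟨hx, hxw⟩ ⟨h, -⟩
    exact ⟨H.mon.inj j x hx h, hxw⟩
  · rintro y ⟨hy, hyw⟩
    obtain ⟨x, hx, hxw, hxy⟩ := H.surj1 j v hy hyw
    exact ⟨x, ⟨hx, hxw⟩, hxy, Submodule.sub_mem _ hyw (N_pow_WS H.hq H.t1 j rfl hxw)⟩

include H in
lemma dd2 (j : ℤ) (b : ℕ) : dd q Φ M j (n + j + b) = dd q Φ M j (n + j - b) := by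
  unfold dd
  have hw : n + j - (b : ℤ) = n + j + b - 2 * b := by ring
  apply dim_step (inf_le_inf_right _ (H.mon.mono (by omega)))
    (inf_le_inf_right _ (H.mon.mono (by omega))) (N₂ ^ b)
  · rintro x ⟨hx, hxw⟩
    exact ⟨H.hst b _ _ hx, N_pow_WS H.hq H.t2 b hw hxw⟩
  · rintro x ⟨hx, hxw⟩
    exact ⟨H.hst b _ _ hx, N_pow_WS H.hq H.t2 b hw hxw⟩
  · rintro x ⟨hx, hxw⟩ ⟨h, -⟩
    exact ⟨(H.pure j).inj b x hx hxw h, hxw⟩
  · rintro y ⟨hy, hyw⟩
    obtain ⟨x, hx, hxw, hxy⟩ := (H.pure j).surj b y hy hyw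
    exact ⟨x, ⟨hx, hxw⟩, hxy, Submodule.sub_mem _ hyw (N_pow_WS H.hq H.t2 b hw hxw)⟩

include H in
lemma dd2' (j b : ℤ) : dd q Φ M j (n + j + b) = dd q Φ M j (n + j - b) := by
  obtain ⟨k, rfl | rfl⟩ := b.eq_nat_or_neg
  · exact H.dd2 j k
  · have := H.dd2 j k
    rw [sub_neg_eq_add, this]
    rfl

include H in
lemma dd3 [IsAlgClosed Ω] (j a : ℤ) : dd q Φ M j (n + a) = dd q Φ M (-j) (n - a) := by
  obtain ⟨k, rfl | rfl⟩ := j.eq_nat_or_neg
  · have h1 := H.dd2' k (a - k)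
    have h2 := H.dd1 k (n + 2 * k - a)
    rw [show n + (k : ℤ) + (a - k) = n + a by ring,
      show n + (k : ℤ) - (a - k) = n + 2 * k - a by ring] at h1
    rw [show n + 2 * (k : ℤ) - a - 2 * k = n - a by ring] at h2
    rw [h1, h2]
  · have h1 := H.dd2' k (a + k)
    have h2 := H.dd1 k (n + a + 2 * k)
    rw [show n + (k : ℤ) + (a + k) = n + a + 2 * k by ring,
      show n + (k : ℤ) - (a + k) = n - a by ring] at h1
    rw [show n + a + 2 * (k : ℤ) - 2 * k = n + a by ring] at h2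
    rw [neg_neg, ← h2, h1]

include H in
/-- The parts of weight `n + a` and `n - a` have the same dimension. -/
theorem finrank_eq [IsAlgClosed Ω] (a : ℤ) :
    finrank Ω (WS q Φ (n + a) : Submodule Ω V) = finrank Ω (WS q Φ (n - a) : Submodule Ω V) := by
  obtain ⟨s, hs⟩ := H.mon.bot
  obtain ⟨t, ht⟩ := H.mon.top
  have key : ∀ k : ℕ,
      (finrank Ω (M k ⊓ WS q Φ (n + a) : Submodule Ω V) : ℤ) -
        finrank Ω (M (-k - 1) ⊓ WS q Φ (n + a) : Submodule Ω V) =
      (finrank Ω (M k ⊓ WS q Φ (n - a) : Submodule Ω V) : ℤ) -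
        finrank Ω (M (-k - 1) ⊓ WS q Φ (n - a) : Submodule Ω V) := by
    intro k
    induction k with
    | zero =>
      have := H.dd3 0 a
      unfold dd at this
      simpa using this
    | succ k ih =>
      have h1 := H.dd3 (k + 1) a
      have h2 := H.dd3 (-(k + 1)) a
      unfold dd at h1 h2
      rw [show (k : ℤ) + 1 - 1 = k by ring] at h1
      rw [neg_neg, show (k : ℤ) + 1 - 1 = k by ring] at h2
      push_cast
      rw [show -(k : ℤ) - 1 = -(k + 1) by ring] at ih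
      linarith
  have h1 := key (|s| + |t|).toNat
  have h2 := abs_nonneg s
  have h3 := abs_nonneg t
  have h4 := neg_abs_le s
  have h5 := le_abs_self t
  rw [Int.toNat_of_nonneg (by omega)] at h1
  have h6 : M (|s| + |t|) = ⊤ := by
    rw [eq_top_iff, ← ht]
    exact H.mon.mono (by omega)
  have h7 : M (-(|s| + |t|) - 1) = ⊥ := by
    rw [eq_bot_iff, ← hs]
    exact H.mon.mono (by omega)
  rw [h6, h7, top_inf_eq, top_inf_eq, bot_inf_eq, bot_inf_eq, finrank_bot] at h1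
  omega

end Hyp

end Run7.h307.WM
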