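import Pool.Agent.Y143.Defs

/-!
# Degenerations over a curve over a p-adic field: definitions

`K` is a henselian discretely valued field of characteristic `0` with finite residue field with `q`
elements, `B` is a smooth curve over `K`, `0 ∈ B(K)`, and `f : 𝒳 → B` is flat and projective of
relative dimension `n`, with `𝒳` regular, smooth outside `0`, whose fibre `Y` over `0` is a reduced
divisor with strict normal crossings. We write `Y^(m)` for the disjoint union of the intersections
of `m` different components of `Y`; it is smooth projective over `K`, of dimension `n + 1 - m`. After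
a finite extension of `K`, the inertia group `I_K` acts unipotently on the cohomology of the
`Y^(m)`. The coefficient field `Ω` is an algebraic closure of `ℚ_ℓ`, `ℓ ≠ p` (or any algebraically
closed field of characteristic zero). We fix a lift in `Gal(\bar K / K)` of the geometric Frobenius.
-/

set_option autoImplicit false

namespace Run7.h307.WM

open Module Pool.Agent.Y143

/-! ### Galois representations -/

section Galois

variable {Ω : Type} [Field Ω] {E F : Type} [AddCommGroup E] [Module Ω E] [AddCommGroup F]
  [Module Ω F]

/-- The relation `N Φ = q Φ N` between the Frobenius and the logarithm of the monodromy. -/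
def QCommute (q : ℕ) (Φ N : Module.End Ω E) : Prop := ∀ x, N (Φ x) = (q : Ω) • Φ (N x)

/-- The operators `Φ` (Frobenius) and `N` (logarithm of the inertia) on `E = ⨁ gr m` have degree `0`
and satisfy `N Φ = q Φ N`. -/
structure IsGaloisSpace (q : ℕ) (gr : ℤ → Submodule Ω E) (Φ N : Module.End Ω E) : Prop where
  frob_gr : ∀ m x, x ∈ gr m → Φ x ∈ gr m
  mon_gr : ∀ m x, x ∈ gr m → N x ∈ gr m
  mon_frob : QCommute q Φ N

/-- `f` maps `gr m` to `gr' (m + k)` and is equivariant, where the Frobenius is multiplied by `c` on
the source (`c = q ^ s` for the Tate twist by `- s`). -/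
structure IsGaloisMap (c : Ω) (k : ℤ) (gr : ℤ → Submodule Ω E) (gr' : ℤ → Submodule Ω F)
    (Φ N : Module.End Ω E) (Φ' N' : Module.End Ω F) (f : E →ₗ[Ω] F) : Prop where
  map_gr : ∀ m x, x ∈ gr m → f x ∈ gr' (m + k)
  map_frob : ∀ x, Φ' (f x) = c • f (Φ x)
  map_mon : ∀ x, N' (f x) = f (N x)

/-- The subspace `Z`, stable under `Φ` and `N`, is mw pure of weight `m`. -/
def IsPureSub [CharZero Ω] (q : ℕ) (m : ℤ) (Φ N : Module.End Ω E) (Z : Submodule Ω E) : Prop :=
  ∃ (h : ∀ x ∈ Z, Φ x ∈ Z) (h' : ∀ x ∈ Z, N x ∈ Z), IsMWPure q m (Φ.restrict h) (N.restrict h')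

/-- `j : E → F` and `p : F → E` make the subspace `Z` of `F` a direct factor of `E`. -/
def IsDirectFactor (Z : Submodule Ω F) (j : E →ₗ[Ω] F) (p : F →ₗ[Ω] E) : Prop :=
  (∀ x, j x ∈ Z) ∧ ∀ x ∈ Z, j (p x) = x

/-- `j : E → F` and `p : Z → E` are compatible with the operators `T` on `Z` and `c T'` on `E`. -/
def IsTwistEquivariant (c : Ω) (Z : Submodule Ω F) (T : Module.End Ω F) (T' : Module.End Ω E)
    (j : E →ₗ[Ω] F) (p : F →ₗ[Ω] E) : Prop :=
  (∀ x, T (j x) = c • j (T' x)) ∧ ∀ x ∈ Z, p (T x) = c • T' (p x)

end Galois

/-! ### The strata of the degenerate fibre -/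

/-- The data given by the cohomology of the strata of the degenerate fibre `Y`: for `a ≥ 0`, `H a` is
the cohomology `⨁_m H^m(Y^(a+1)_{\bar K}, Ω)` of `Y^(a+1)`, with

* the subspaces `gr a m = H^m(Y^(a+1)_{\bar K}, Ω)`;
* the action `frob a` of the (lift of the) geometric Frobenius of `K`;
* the logarithm `mon a` of the action of the inertia group of `K`;
* the restriction `res` (the alternating sum of the pull-backs) and the Gysin map `gys` (the
  alternating sum of the push-forwards). -/
structure StrataData (Ω : Type) [Field Ω] where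
  H : ℕ → Type
  [addCommGroup : ∀ a, AddCommGroup (H a)]
  [module : ∀ a, Module Ω (H a)]
  gr : ∀ a, ℤ → Submodule Ω (H a)
  frob : ∀ a, Module.End Ω (H a)
  mon : ∀ a, Module.End Ω (H a)
  res : ∀ a, H a →ₗ[Ω] H (a + 1)
  gys : ∀ a, H (a + 1) →ₗ[Ω] H a

attribute [instance] StrataData.addCommGroup StrataData.module

namespace StrataData

variable {Ω : Type} [Field Ω] (Y : StrataData Ω)

/-- Families of cohomology classes on all the `Y^(a+1)`. -/
abbrev C : Type := ∀ a, Y.H a

/-- The term `E_1^(r, w)` of the weight spectral sequence of Rapoport and Zink of the semistable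
degeneration `𝒳` over the henselization of `B` at `0`:
the sum of the `H^(w + r - a)(Y^(a+1))(- (a - r) / 2)` for the `a` in the `r`-th column. -/
def E₁ (r w : ℤ) : Submodule Ω Y.C where
  carrier := {x | ∀ a, x a ∈ Y.gr a (w + r - a) ∧ (¬ InColumn r a → x a = 0)}
  add_mem' hx hy a := ⟨Submodule.add_mem _ (hx a).1 (hy a).1, fun h => by
    rw [Pi.add_apply, (hx a).2 h, (hy a).2 h, add_zero]⟩
  zero_mem' a := ⟨Submodule.zero_mem _, fun _ => rfl⟩
  smul_mem' c x hx a := ⟨Submodule.smul_mem _ c (hx a).1, fun h => by
    rw [Pi.smul_apply, (hx a).2 h, smul_zero]⟩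

/-- The restriction on families. -/
def resC : Y.C →ₗ[Ω] Y.C where
  toFun x a := match a with
    | 0 => 0
    | b + 1 => Y.res b (x b)
  map_add' x y := by
    ext a
    cases a with
    | zero => simp
    | succ b => simp
  map_smul' c x := by
    ext a
    cases a with
    | zero => simp
    | succ b => simp

/-- The Gysin map on families. -/
def gysC : Y.C →ₗ[Ω] Y.C where
  toFun x a := Y.gys a (x (a + 1))
  map_add' x y := by ext a; simp
  map_smul' c x := by ext a; simp

open Classical in
/-- The projection to the components in the `r`-th column. -/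
noncomputable def cut (r : ℤ) : Y.C →ₗ[Ω] Y.C where
  toFun x a := if InColumn r a then x a else 0
  map_add' x y := by
    ext a
    by_cases h : InColumn r a <;> simp [h]
  map_smul' c x := by
    ext a
    by_cases h : InColumn r a <;> simp [h]

/-- The differential `d_1 = res + gys` from the column `r` to the column `r + 1`. -/
noncomputable def diff (r : ℤ) : Y.C →ₗ[Ω] Y.C := Y.cut (r + 1) ∘ₗ (Y.resC + Y.gysC)

/-- The action of the Frobenius on the column `r`, with the Tate twists by `- (a - r) / 2`. -/
def frobC (q : ℕ) (r : ℤ) : Y.C →ₗ[Ω] Y.C where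
  toFun x a := ((q : Ω) ^ (((a : ℤ) - r) / 2)) • Y.frob a (x a)
  map_add' x y := by ext a; simp
  map_smul' c x := by
    ext a
    simp only [Pi.smul_apply, map_smul, RingHom.id_apply]
    rw [smul_comm]

/-- The logarithm of the action of the inertia group of `K` on families. -/
def monC : Y.C →ₗ[Ω] Y.C where
  toFun x a := Y.mon a (x a)
  map_add' x y := by ext a; simp
  map_smul' c x := by ext a; simp

/-- Cocycles: the kernel of `d_1` on `E_1^(r, w)`. -/
noncomputable def cocycles (r w : ℤ) : Submodule Ω Y.C := Y.E₁ r w ⊓ LinearMap.ker (Y.diff r)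

/-- Coboundaries: the image of `E_1^(r - 1, w)` in `E_1^(r, w)`. The quotient of the cocycles by the
coboundaries is `E_2^(r, w)`. -/
noncomputable def coboundaries (r w : ℤ) : Submodule Ω Y.C :=
  (Y.E₁ (r - 1) w).map (Y.diff (r - 1))

/-- `H^m(Y^(a+1))` is mw pure of weight `m`: the weight-monodromy conjecture for the stratum
`Y^(a+1)` over `K` and the degree `m`. -/
def IsPure [CharZero Ω] (q : ℕ) (a : ℕ) (m : ℤ) : Prop :=
  IsPureSub q m (Y.frob a) (Y.mon a) (Y.gr a m)

/-- `H^m(Y^(a+1))` is a direct factor of the twist `E(-s)` of a mw pure Galois representation `E` of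
weight `m - 2 s`. For example this holds, with `m = 3`, `s = 1` and `E = H^1` of an abelian variety
over `K`, if `Y^(a+1)` is rationally connected or, more generally, if its Chow group of zero-cycles
is supported on a curve (Bloch-Srinivas). -/
def IsFactor [CharZero Ω] (q : ℕ) (a : ℕ) (m : ℤ) : Prop :=
  ∃ (s : ℕ) (E : Type) (_ : AddCommGroup E) (_ : Module Ω E) (_ : FiniteDimensional Ω E)
    (Φ N : Module.End Ω E) (j : E →ₗ[Ω] Y.H a) (p : Y.H a →ₗ[Ω] E),
    IsMWPure q (m - 2 * s) Φ N ∧ QCommute q Φ N ∧ IsDirectFactor (Y.gr a m) j p ∧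
      IsTwistEquivariant ((q : Ω) ^ s) (Y.gr a m) (Y.frob a) Φ j p ∧
      IsTwistEquivariant 1 (Y.gr a m) (Y.mon a) N j p

/-- The restriction `H^m(Y^(a+1)) → H^m(Y^(a+2))` is Galois equivariant, and its square is zero. -/
structure HasRestriction : Prop where
  res : ∀ a, IsGaloisMap 1 0 (Y.gr a) (Y.gr (a + 1)) (Y.frob a) (Y.mon a) (Y.frob (a + 1))
    (Y.mon (a + 1)) (Y.res a)
  res_res : ∀ a, IsZeroComp (Y.res a) (Y.res (a + 1))

/-- The Gysin map `H^m(Y^(a+2))(-1) → H^(m+2)(Y^(a+1))` is Galois equivariant, its square is zero, and
it anticommutes with the restriction. -/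
structure HasGysin (q : ℕ) : Prop where
  gys : ∀ a, IsGaloisMap (q : Ω) 2 (Y.gr (a + 1)) (Y.gr a) (Y.frob (a + 1)) (Y.mon (a + 1))
    (Y.frob a) (Y.mon a) (Y.gys a)
  gys_gys : ∀ a, IsZeroComp (Y.gys (a + 1)) (Y.gys a)
  res_gys : ∀ a, Anticommute (Y.gys a) (Y.res a) (Y.res (a + 1)) (Y.gys (a + 1))

end StrataData

/-- The cohomology of the strata of the degenerate fibre `Y` (see above).

`known`: the cohomology in degrees `≤ 2` and `≥ 2 dim - 2` of a smooth projective variety over `K` is
mw pure (Grothendieck for `H^1`; Rapoport-Zink and de Jong for surfaces, with the weak and the hard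
Lefschetz theorem). -/
structure DegenerateFibre (Ω : Type) [Field Ω] [CharZero Ω] (n q : ℕ) extends StrataData Ω where
  graded : ∀ a : ℕ, IsGraded (gr a) (n - a)
  galois : ∀ a : ℕ, IsGaloisSpace q (gr a) (frob a) (mon a)
  restriction : toStrataData.HasRestriction
  gysin : toStrataData.HasGysin q
  known : ∀ (a : ℕ) (m : ℤ), m ≤ 2 ∨ 2 * ((n : ℤ) - a) - 2 ≤ m → toStrataData.IsPure q a m

/-- The weight-monodromy conjecture for the strata of `Y`, in the degrees in which it is not known in
general: for all `a` and all `m` with `3 ≤ m ≤ 2 dim Y^(a+1) - 3`, the cohomology `H^m(Y^(a+1))` is mw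
pure of weight `m`, or a direct factor of a twist of a mw pure representation. For `n ≤ 2` there is
no condition, for `n = 3` this is a condition on the cohomology `H^3` of the components of `Y`. -/
def DegenerateFibre.StrataPure {Ω : Type} [Field Ω] [CharZero Ω] {n q : ℕ}
    (Y : DegenerateFibre Ω n q) : Prop :=
  ∀ (a : ℕ) (m : ℤ), 3 ≤ m → m ≤ 2 * ((n : ℤ) - a) - 3 → Y.IsPure q a m ∨ Y.IsFactor q a m

/-! ### The limit cohomology -/

/-- The data given by the limit cohomology: `V i` is the cohomology of degree `i` of the geometric
generic fibre of `𝒳` over the henselization of `B` at `0`. This is a henselian trait with residue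
field `K`; the choice of a uniformizer `u` defines an action of `Gal(\bar K / K)` on `V i`.

* `frob` is the action of the Frobenius of `K` and `mon` is the logarithm of the action of the
  inertia group of `K`;
* `N` is the logarithm of the geometric monodromy around the point `0` of `B`;
* `W` is the weight filtration and `sp` is the identification of its graded pieces with the terms of
  the weight spectral sequence (given by its graph). -/
structure LimitData {Ω : Type} [Field Ω] (Y : StrataData Ω) where
  V : ℕ → Type
  [addCommGroup : ∀ i, AddCommGroup (V i)]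
  [module : ∀ i, Module Ω (V i)]
  frob : ∀ i, Module.End Ω (V i)
  mon : ∀ i, Module.End Ω (V i)
  N : ∀ i, Module.End Ω (V i)
  W : ∀ i, ℤ → Submodule Ω (V i)
  sp : ∀ i, ℤ → Submodule Ω (V i × Y.C)

attribute [instance] LimitData.addCommGroup LimitData.module

section Limit

variable {Ω : Type} [Field Ω] {V C : Type} [AddCommGroup V] [Module Ω V] [AddCommGroup C]
  [Module Ω C]

/-- The relations between the actions `Φ` of the Frobenius and `M` of the inertia group of `K`, and
the geometric monodromy `N`, on the limit cohomology, which is finite-dimensional. -/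
structure IsLimitSpace (q : ℕ) (Φ M N : Module.End Ω V) : Prop where
  finite : Module.Finite Ω V
  mon_frob : QCommute q Φ M
  N_frob : QCommute q Φ N
  N_mon : ∀ v, N (M v) = M (N v)

/-- The graphs `S w` are stable under `T` on `V` and `T' w` on `C`. -/
def IsEquivariantGraph (S : ℤ → Submodule Ω (V × C)) (T : Module.End Ω V)
    (T' : ℤ → Module.End Ω C) : Prop := ∀ w v x, (v, x) ∈ S w → (T v, T' w x) ∈ S w

end Limit

/-- The weight spectral sequence of Rapoport and Zink: `W_w V^i / W_(w - 1) V^i ≅ E_2^(i - w, w)`,
equivariant for `Gal(\bar K / K)`. -/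
structure LimitData.HasWeightSequence {Ω : Type} [Field Ω] {Y : StrataData Ω} (L : LimitData Y)
    (q : ℕ) : Prop where
  graded : ∀ i : ℕ, HasGraded (L.W i) (L.sp i) (fun w => Y.cocycles (i - w) w)
    (fun w => Y.coboundaries (i - w) w)
  sp_frob : ∀ i : ℕ, IsEquivariantGraph (L.sp i) (L.frob i) (fun w => Y.frobC q (i - w))
  sp_mon : ∀ i : ℕ, IsEquivariantGraph (L.sp i) (L.mon i) (fun _ => Y.monC)

/-- A semistable degeneration over a curve over `K`: the strata of the degenerate fibre, and the limit
cohomology with the weight spectral sequence. `monodromy` is the weight-monodromy theorem for the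
geometric monodromy: the weight filtration on `V i` (centered at `i`) is the monodromy filtration of
`N`, since the residue field `K` of the trait has characteristic zero (Steenbrink, M. Saito,
Deligne). -/
structure Degeneration (Ω : Type) [Field Ω] [CharZero Ω] (n q : ℕ)
    extends DegenerateFibre Ω n q where
  limit : LimitData toStrataData
  limitSpace : ∀ i, IsLimitSpace q (limit.frob i) (limit.mon i) (limit.N i)
  weightSequence : limit.HasWeightSequence q
  monodromy : ∀ i : ℕ, IsMonodromyFiltration (limit.N i) (fun j => limit.W i (i + j))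

/-! ### The fibres near the degenerate fibre -/

/-- The exponential of a nilpotent operator. -/
noncomputable def nexp {Ω V : Type} [Field Ω] [AddCommGroup V] [Module Ω V]
    (N : Module.End Ω V) : Module.End Ω V :=
  ∑ k ∈ Finset.range (finrank Ω V + 1), ((k.factorial : Ω)⁻¹) • N ^ k

section Kummer

variable {Ω : Type} [Field Ω] {V F : Type} [AddCommGroup V] [Module Ω V] [AddCommGroup F]
  [Module Ω F]

/-- The logarithm of the inertia of `K(t)` on the limit cohomology, twisted by the Kummer cocycle of
`u(t)`: `ram` is the ramification index of `K(t) / K` and `val` is the normalized valuation of `u(t)`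
in `K(t)`; `M` is the logarithm of the inertia of `K`, `N` is the geometric monodromy. -/
def kummerMon (ram val : ℕ) (M N : Module.End Ω V) : Module.End Ω V :=
  (ram : Ω) • M + (val : Ω) • N

/-- The action of a lift of the Frobenius of `K(t)` on the limit cohomology, twisted by the Kummer
cocycle of `u(t)`: the lift differs from the power `deg` (the residue degree) of the lift `Φ` of the
Frobenius of `K` by an element of the inertia group of `K`, which acts by `exp (μ M)`; `κ` is the
value of the Kummer cocycle. -/
noncomputable def kummerFrob (deg : ℕ) (κ μ : Ω) (Φ M N : Module.End Ω V) : Module.End Ω V :=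
  Φ ^ deg * (nexp (μ • M) * nexp (κ • N))

/-- The isomorphism `θ` is compatible with the operators `T` and `T'`. -/
def IsIntertwiner (T : Module.End Ω V) (T' : Module.End Ω F) (θ : V ≃ₗ[Ω] F) : Prop :=
  ∀ v, T' (θ v) = θ (T v)

end Kummer

/-- The fibres `X_t` of `f : 𝒳 → B` over the closed points `t ≠ 0` of a `p`-adic disc around `0`, with
coordinate `u`, on whose punctured disc the sheaf `R f_* Ω` is a Kummer local system (local
constancy: such a disc exists). For a closed point `t`, with residue field `K(t)`,

* `deg t` and `ram t` are the residue degree and the ramification index of `K(t) / K`, and `val t` is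
  the normalized valuation of `u(t)` in `K(t)`; so `val t / ram t` is the valuation of `u(t)` which
  extends the normalized valuation of `K`;
* `F t i` is the cohomology `H^i(X_{t, \bar K}, Ω)`, `frob t i` is the action of a lift of the
  geometric Frobenius of `K(t)` and `mon t i` is the logarithm of the action of the inertia group of
  `K(t)`;
* `θ t i` is the isomorphism of the limit cohomology with `H^i(X_{t, \bar K}, Ω)` given by the local
  constancy, and `κ t` and `μ t` are constants, see `kummerFrob`. -/
structure Fibres {Ω : Type} [Field Ω] {Y : StrataData Ω} (L : LimitData Y) where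
  Point : Type
  deg : Point → ℕ
  ram : Point → ℕ
  val : Point → ℕ
  κ : Point → Ω
  μ : Point → Ω
  F : Point → ℕ → Type
  [addCommGroup : ∀ t i, AddCommGroup (F t i)]
  [module : ∀ t i, Module Ω (F t i)]
  frob : ∀ t i, Module.End Ω (F t i)
  mon : ∀ t i, Module.End Ω (F t i)
  θ : ∀ t i, L.V i ≃ₗ[Ω] F t i

attribute [instance] Fibres.addCommGroup Fibres.module

/-- Local constancy in the punctured disc: the Galois representation `F t i` of
`Gal(\bar K / K(t))` is isomorphic to the limit cohomology `V i`, twisted by the Kummer cocycle `c` of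
`u(t)`: an element `σ` acts on `V i` as the product of its action as an element of `Gal(\bar K / K)`
and of `exp (c(σ) N)`. We only need this for the logarithm of the inertia and for the Frobenius. -/
structure Fibres.IsLocallyConstant {Ω : Type} [Field Ω] {Y : StrataData Ω} {L : LimitData Y}
    (X : Fibres L) : Prop where
  ram_pos : ∀ t, 0 < X.ram t
  mon_θ : ∀ t i, IsIntertwiner (kummerMon (X.ram t) (X.val t) (L.mon i) (L.N i)) (X.mon t i)
    (X.θ t i)
  frob_θ : ∀ t i, IsIntertwiner
    (kummerFrob (X.deg t) (X.κ t) (X.μ t) (L.frob i) (L.mon i) (L.N i)) (X.frob t i) (X.θ t i)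

/-- A projective semistable family over a curve over `K`: the degeneration at the point `0`, and the
fibres over the closed points of the punctured disc. -/
structure Family (Ω : Type) [Field Ω] [CharZero Ω] (n q : ℕ) extends Degeneration Ω n q where
  fibres : Fibres limit
  locallyConstant : fibres.IsLocallyConstant

end Run7.h307.WM
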