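import Pool.Agent.Run7.h307.WM.Det
import Pool.Agent.Run7.h307.WM.Geo
import Pool.Agent.Y143.WeilNum

/-!
# Mw purity of the operators `N₂ + c N₁` with `c` large
-/

set_option autoImplicit false

namespace Run7.h307.WM

open Module Pool.Agent.Y143 Pool.Agent.N184.HP Pool.Agent.N184.HK

section

variable {Ω V : Type} [Field Ω] [AddCommGroup V] [Module Ω V]

lemma nexp_sub (N : Module.End Ω V) (x : V) :
    nexp N x - x =
      ∑ k ∈ Finset.range (finrank Ω V), (((k + 1).factorial : Ω)⁻¹) • (N ^ (k + 1)) x := by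
  unfold nexp
  rw [Finset.sum_range_succ', LinearMap.add_apply, LinearMap.sum_apply]
  simp

lemma gen_pow {Φ : Module.End Ω V} {β : Ω} (f : ℕ) {x : V} (hx : x ∈ Φ.maxGenEigenspace β) :
    x ∈ (Φ ^ f).maxGenEigenspace (β ^ f) := by
  rw [Module.End.mem_maxGenEigenspace] at hx ⊢
  obtain ⟨k, hk⟩ := hx
  refine ⟨k, ?_⟩
  have hc : Commute Φ (β • (1 : Module.End Ω V)) := (Commute.one_right Φ).smul_right β
  have h1 := hc.geom_sum₂_mul f
  have h2 : (β • (1 : Module.End Ω V)) ^ f = β ^ f • 1 := by rw [smul_pow, one_pow]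
  rw [h2] at h1
  rw [← h1]
  have h3 : Commute (∑ i ∈ Finset.range f, Φ ^ i * (β • (1 : Module.End Ω V)) ^ (f - 1 - i))
      (Φ - β • (1 : Module.End Ω V)) := by
    apply Commute.sum_left
    intro i _
    apply Commute.mul_left
    · exact (Commute.pow_left (Commute.sub_right (Commute.refl Φ) hc) i)
    · exact (Commute.pow_left (Commute.sub_right hc.symm (Commute.refl _)) _)
  rw [h3.mul_pow, Module.End.mul_apply, hk, map_zero]

lemma eig_pow {Φ : Module.End Ω V} {S : Set Ω} (f : ℕ) {x : V} (hx : x ∈ eig Φ S) :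
    x ∈ eig (Φ ^ f) ((fun β => β ^ f) '' S) := by
  have h : eig Φ S ≤ eig (Φ ^ f) ((fun β => β ^ f) '' S) := eig_le fun β hβ x hx =>
    le_eig (S := (fun β => β ^ f) '' S) ⟨β, hβ, rfl⟩ (gen_pow f hx)
  exact h hx

lemma pow_stab {Φ : Module.End Ω V} {B : Submodule Ω V} (h : ∀ x ∈ B, Φ x ∈ B) (f : ℕ) :
    ∀ x ∈ B, (Φ ^ f) x ∈ B := by
  induction f with
  | zero => intro x hx; simpa using hx
  | succ f ih =>
    intro x hx
    rw [pow_succ', Module.End.mul_apply]
    exact h _ (ih x hx)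

end

variable {Ω V : Type} [Field Ω] [CharZero Ω] [AddCommGroup V] [Module Ω V]

omit [CharZero Ω] in
lemma weil_pow_base [CharZero Ω] {q : ℕ} {w : ℤ} {β : Ω} (f : ℕ) (h : IsWeilNumber q w β) :
    IsWeilNumber (q ^ f) w (β ^ f) := by
  obtain ⟨h1, h2⟩ := h.pow f
  refine ⟨h1, fun z hz => ?_⟩
  rw [h2 z hz]
  push_cast
  rw [← Real.rpow_natCast, ← Real.rpow_mul (Nat.cast_nonneg q)]
  congr 1
  ring

open P_TOM in
/-- Isomorphisms between the weight spaces of `Φ` give mw purity for the operators `Φ'` which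
induce `Φ ^ f` on the graded pieces of the weight filtration. -/
theorem tom' [IsAlgClosed Ω] [FiniteDimensional Ω V] {q : ℕ} (hq : 1 < q) (i : ℤ)
    {Φ N Φ' : Module.End Ω V} (f : ℕ)
    (hroots : ∀ e ∈ Φ.charpoly.roots, ∃ w : ℤ, IsWeilNumber q w e)
    (hN : ∀ x, N (Φ x) = (q : Ω) • Φ (N x))
    (hbij : ∀ j : ℕ, Set.BijOn (⇑(N ^ j)) (WS q Φ (i + j) : Set V) (WS q Φ (i - j) : Set V))
    (hΦ' : ∀ c x, x ∈ eig Φ (P_TOM.Le Ω q c) → Φ' x - (Φ ^ f) x ∈ eig Φ (P_TOM.Le Ω q (c - 1))) :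
    IsMWPure (q ^ f) i Φ' N := by
  classical
  obtain ⟨wt, hwt⟩ : ∃ wt : Ω → ℤ, ∀ e ∈ Φ.charpoly.roots, IsWeilNumber q (wt e) e := by
    refine ⟨fun e => if h : ∃ w : ℤ, IsWeilNumber q w e then h.choose else 0, fun e he => ?_⟩
    simp only [dif_pos (hroots e he)]
    exact (hroots e he).choose_spec
  obtain ⟨U, hU⟩ := (Φ.charpoly.roots.toFinset.image wt).bddAbove
  obtain ⟨L, hL⟩ := (Φ.charpoly.roots.toFinset.image wt).bddBelow
  have hU' : ∀ e ∈ Φ.charpoly.roots, wt e ≤ U := fun e he =>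
    hU (Finset.mem_coe.2 (Finset.mem_image_of_mem wt (Multiset.mem_toFinset.2 he)))
  have hL' : ∀ e ∈ Φ.charpoly.roots, L ≤ wt e := fun e he =>
    hL (Finset.mem_coe.2 (Finset.mem_image_of_mem wt (Multiset.mem_toFinset.2 he)))
  have split : ∀ c : ℤ, eig Φ (Le Ω q c) = eig Φ (Le Ω q (c - 1)) ⊔ eig Φ (P_TOM.Eq Ω q c) := by
    intro c
    rw [eig_sup, ← Le_split]
  have hst : ∀ c x, x ∈ eig Φ (Le Ω q c) → (Φ ^ f) x ∈ eig Φ (Le Ω q c) := fun c x hx =>
    pow_stab (fun y hy => Phi_eig Φ _ y hy) f x hx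
  have hdown : ∀ c, eig Φ (Le Ω q (c - 1)) ≤ eig Φ (Le Ω q c) := fun c =>
    eig_mono (Le_mono q (by omega))
  refine ⟨fun a => eig Φ (Le Ω q (i + a)), ?_, ?_, ?_⟩
  · refine ⟨?_, ?_, ?_, ?_, ?_, ?_⟩
    · intro a b hab
      exact eig_mono (Le_mono q (by omega))
    · refine ⟨L - 1 - i, ?_⟩
      rw [eq_bot_iff]
      apply eig_le
      rintro α ⟨w, hw, hα⟩ x hx
      by_cases h : α ∈ Φ.charpoly.roots
      · exfalso
        have h1 := weight_unique hq hα (hwt α h)
        have h2 := hL' α h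
        omega
      · rwa [maxGen_eq_bot h] at hx
    · refine ⟨U - i, ?_⟩
      rw [eq_top_iff, ← eig_univ Φ]
      apply eig_le
      rintro α - x hx
      by_cases h : α ∈ Φ.charpoly.roots
      · have h2 := hU' α h
        exact le_eig (S := Le Ω q (i + (U - i))) ⟨wt α, by omega, hwt α h⟩ hx
      · rw [maxGen_eq_bot h, Submodule.mem_bot] at hx
        rw [hx]
        exact zero_mem _
    · intro a x hx
      have := N_Le hq hN (i + a) x hx
      rwa [show i + a - 2 = i + (a - 2) by ring] at this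
    · intro a x hx hNx
      have hx' : x ∈ eig Φ (Le Ω q (i + a)) := hx
      rw [split, Submodule.mem_sup] at hx'
      obtain ⟨x', h1, xa, h2, rfl⟩ := hx'
      have h3 := N_pow_Le hq hN a _ _ h1
      rw [show i + (a : ℤ) - 1 - 2 * a = i + (-a - 1) by ring] at h3
      have h4 : (N ^ a) xa ∈ eig Φ (Le Ω q (i + (-a - 1))) := by
        have : (N ^ a) xa = (N ^ a) (x' + xa) - (N ^ a) x' := by rw [map_add]; abel
        rw [this]
        exact Submodule.sub_mem _ hNx h3
      have h5 : (N ^ a) xa ∈ eig Φ (P_TOM.Eq Ω q (i - a)) := (hbij a).mapsTo h2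
      have h6 : (N ^ a) xa = 0 :=
        Submodule.disjoint_def.1 (eig_disjoint (disj hq (show i + (-(a : ℤ) - 1) < i - a by omega)))
          _ h4 h5
      have h7 : xa = 0 := (hbij a).injOn h2 (zero_mem (eig Φ (P_TOM.Eq Ω q (i + a))))
        (by rw [h6, map_zero])
      rw [h7, add_zero]
      rw [show i + (a : ℤ) - 1 = i + (a - 1) by ring] at h1
      exact h1
    · intro a y hy
      have hy' : y ∈ eig Φ (Le Ω q (i + -a)) := hy
      rw [split, Submodule.mem_sup] at hy'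
      obtain ⟨y', h1, ya, h2, rfl⟩ := hy'
      rw [show i + -(a : ℤ) = i - a by ring] at h2
      obtain ⟨x, hx, hxy⟩ := (hbij a).surjOn h2
      refine ⟨x, ?_, ?_⟩
      · have : eig Φ (P_TOM.Eq Ω q (i + a)) ≤ eig Φ (Le Ω q (i + a)) :=
          eig_mono fun e he => ⟨i + a, le_rfl, he⟩
        exact this hx
      · rw [hxy, add_sub_cancel_right]
        rw [show i + -(a : ℤ) - 1 = i + (-a - 1) by ring] at h1
        exact h1
  · intro a x hx
    have hx' : x ∈ eig Φ (Le Ω q (i + a)) := hx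
    have h1 := Submodule.add_mem _ (hdown _ (hΦ' _ x hx')) (hst _ x hx')
    rwa [sub_add_cancel] at h1
  · intro a α x hx hx1 h
    have hx' : x ∈ eig Φ (Le Ω q (i + a)) := hx
    have hΦx := hΦ' _ x hx'
    rw [split, Submodule.mem_sup] at hx'
    obtain ⟨x', h1, xa, h2, rfl⟩ := hx'
    rw [show i + a - 1 = i + (a - 1) by ring] at h1 hΦx
    have h3 : xa ∉ eig Φ (Le Ω q (i + (a - 1))) := fun h4 => hx1 (Submodule.add_mem _ h1 h4)
    have h4 : (Φ ^ f) xa - α • xa ∈ eig Φ (Le Ω q (i + (a - 1))) := by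
      have : (Φ ^ f) xa - α • xa = (Φ' (x' + xa) - α • (x' + xa)) -
          (Φ' (x' + xa) - (Φ ^ f) (x' + xa)) - ((Φ ^ f) x' - α • x') := by
        rw [map_add (Φ ^ f), smul_add]; abel
      rw [this]
      exact Submodule.sub_mem _ (Submodule.sub_mem _ h hΦx)
        (Submodule.sub_mem _ (hst _ x' h1) (Submodule.smul_mem _ _ h1))
    have h5 := eigen_of_eig (eig_pow f h2) (fun y hy => hst _ y hy) h3 h4
    obtain ⟨β, hβ, rfl⟩ := h5
    rw [add_comm]
    exact weil_pow_base f hβ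

namespace Hyp

variable {q : ℕ} {n : ℤ} {Φ N₁ N₂ : Module.End Ω V} {M : ℤ → Submodule Ω V}
  (H : Hyp q n Φ N₁ N₂ M)

include H

theorem generic_all [IsAlgClosed Ω] [FiniteDimensional Ω V] :
    ∃ S : Set Ω, S.Finite ∧ ∀ c : Ω, c ∉ S → ∀ a : ℕ, Set.BijOn (⇑((N₂ + c • N₁) ^ a))
      (WS q Φ (n + a) : Set V) (WS q Φ (n - a) : Set V) := by
  choose S hS hbij using fun a => H.generic a
  obtain ⟨B, hB⟩ := WS_bot (Φ := Φ) H.hq
  refine ⟨⋃ a ∈ Finset.range (|n| + |B| + 1).toNat, S a, ?_, ?_⟩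
  · exact Set.Finite.biUnion (Finset.finite_toSet _) fun a _ => hS a
  · intro c hc a
    by_cases ha : a < (|n| + |B| + 1).toNat
    · apply hbij a c
      intro h
      exact hc (Set.mem_biUnion (by simpa using ha) h)
    · have h1 := abs_nonneg n
      have h2 := abs_nonneg B
      have h3 := le_abs_self B
      have h4 := le_abs_self n
      have h5 := neg_abs_le n
      have e1 : WS q Φ (n + a) = ⊥ := hB _ (by rw [lt_abs]; left; omega)
      have e2 : WS q Φ (n - a) = ⊥ := hB _ (by rw [lt_abs]; right; omega)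
      rw [e1, e2]
      refine ⟨?_, ?_, ?_⟩
      · intro x hx
        rw [SetLike.mem_coe, Submodule.mem_bot] at hx ⊢
        rw [hx, map_zero]
      · intro x hx y hy _
        rw [SetLike.mem_coe, Submodule.mem_bot] at hx hy
        rw [hx, hy]
      · intro y hy
        rw [SetLike.mem_coe, Submodule.mem_bot] at hy
        exact ⟨0, zero_mem _, by rw [hy, map_zero]⟩

/-- Mw purity for all but finitely many values of the valuation. -/
theorem near [IsAlgClosed Ω] [FiniteDimensional Ω V]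
    (hroots : ∀ e ∈ Φ.charpoly.roots, ∃ w : ℤ, IsWeilNumber q w e) :
    ∃ S : Finset ℚ, ∀ e v f : ℕ, 0 < e → (v / e : ℚ) ∉ S → ∀ κ μ : Ω,
      IsMWPure (q ^ f) n (Φ ^ f * (nexp (μ • N₂) * nexp (κ • N₁)))
        ((e : Ω) • N₂ + (v : Ω) • N₁) := by
  obtain ⟨S, hS, hbij⟩ := H.generic_all
  have hfin : {r : ℚ | (r : Ω) ∈ S}.Finite := hS.preimage (Rat.cast_injective.injOn)
  refine ⟨hfin.toFinset, fun e v f he hv κ μ => ?_⟩
  have he' : (e : Ω) ≠ 0 := Nat.cast_ne_zero.2 he.ne'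
  have hbad : (((v : ℚ) / e : ℚ) : Ω) ∉ S := by
    intro h
    apply hv
    rw [Set.Finite.mem_toFinset]
    exact h
  have hb := hbij _ hbad
  have eN : (e : Ω) • N₂ + (v : Ω) • N₁ =
      (e : Ω) • (N₂ + (((v : ℚ) / e : ℚ) : Ω) • N₁) := by
    rw [smul_add, smul_smul]
    congr 2
    push_cast
    field_simp
  rw [eN]
  generalize (((v : ℚ) / e : ℚ) : Ω) = c at hb
  have tc : ∀ x, (N₂ + c • N₁) (Φ x) = (q : Ω) • Φ ((N₂ + c • N₁) x) := by
    intro x
    simp only [LinearMap.add_apply, LinearMap.smul_apply, H.t1, H.t2, map_add, map_smul, smul_add]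
    rw [smul_comm]
  apply tom' H.hq n f hroots
  · intro x
    rw [LinearMap.smul_apply, LinearMap.smul_apply, tc, map_smul, smul_comm]
  · intro j
    rw [smul_pow]
    apply bijOn_of'
    · intro x hx
      exact Submodule.smul_mem _ _ ((hb j).mapsTo hx)
    · intro x hx h0
      rw [LinearMap.smul_apply] at h0
      have h1 := (smul_eq_zero.1 h0).resolve_left (pow_ne_zero j he')
      exact (hb j).injOn hx (zero_mem _) (by rw [h1, map_zero])
    · intro y hy
      obtain ⟨x, hx, hxy⟩ := (hb j).surjOn hy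
      refine ⟨((e : Ω) ^ j)⁻¹ • x, Submodule.smul_mem _ _ hx, ?_⟩
      rw [LinearMap.smul_apply, map_smul, smul_smul, mul_inv_cancel₀ (pow_ne_zero j he'), one_smul]
      exact hxy
  · intro c x hx
    have key : ∀ {N : Module.End Ω V} (_ : ∀ x, N (Φ x) = (q : Ω) • Φ (N x)) (κ : Ω) (x : V),
        x ∈ eig Φ (P_TOM.Le Ω q c) → nexp (κ • N) x - x ∈ eig Φ (P_TOM.Le Ω q (c - 1)) := by
      intro N hN κ x hx
      rw [nexp_sub]
      refine Submodule.sum_mem _ fun k _ => Submodule.smul_mem _ _ ?_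
      rw [smul_pow, LinearMap.smul_apply]
      refine Submodule.smul_mem _ _ ?_
      have h1 := P_TOM.N_pow_Le H.hq hN (k + 1) c x hx
      exact eig_mono (P_TOM.Le_mono q (by push_cast; omega)) h1
    rw [Module.End.mul_apply, ← map_sub]
    apply pow_stab (fun y hy => P_TOM.Phi_eig Φ _ y hy) f
    rw [Module.End.mul_apply]
    have h1 := key H.t1 κ x hx
    have h2 : nexp (κ • N₁) x ∈ eig Φ (P_TOM.Le Ω q c) := by
      have := Submodule.add_mem _ (eig_mono (P_TOM.Le_mono q (by omega)) h1) hx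
      rwa [sub_add_cancel] at this
    have h3 := key H.t2 μ _ h2
    have := Submodule.add_mem _ h3 h1
    rwa [sub_add_sub_cancel] at this

end Hyp

end Run7.h307.WM
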