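import Pool.Agent.N184.HK.P_SL2A
import Pool.Agent.N184.HK.P_SL2B

/-!
# The sum of two commuting Lefschetz operators
-/

set_option autoImplicit false

namespace Run7.h307.WM

open Module Pool.Agent.N184.HK

variable {Ω U : Type} [Field Ω] [CharZero Ω] [IsAlgClosed Ω] [AddCommGroup U] [Module Ω U]
  [FiniteDimensional Ω U]

/-- An operator which commutes with `N` and raises the degree by two is zero. -/
lemma raise_zero {X D N Z : Module.End Ω U} (h1 : D * X - X * D = (2 : Ω) • X)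
    (h2 : D * N - N * D = -(2 : Ω) • N) (h3 : X * N - N * X = D) (hZ : D * Z - Z * D = (2 : Ω) • Z)
    (hNZ : N * Z - Z * N = 0) : Z = 0 := by
  let ad : Module.End Ω U → Module.End Ω (Module.End Ω U) := fun A =>
    LinearMap.mulLeft Ω A - LinearMap.mulRight Ω A
  have had : ∀ A B, ad A B = A * B - B * A := fun A B => rfl
  have hbr : ∀ A B, ad A * ad B - ad B * ad A = ad (A * B - B * A) := by
    intro A B
    apply LinearMap.ext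
    intro C
    rw [LinearMap.sub_apply, Module.End.mul_apply, Module.End.mul_apply, had, had, had, had, had]
    noncomm_ring
  have hsm : ∀ (c : Ω) A, ad (c • A) = c • ad A := by
    intro c A
    apply LinearMap.ext
    intro C
    rw [LinearMap.smul_apply, had, had, smul_mul_assoc, mul_smul_comm, smul_sub]
  obtain ⟨-, h5⟩ := t_sl2b Ω (Module.End Ω U) (ad X) (ad D) (ad N)
    (by rw [hbr, h1, hsm]) (by rw [hbr, h2, hsm]) (by rw [hbr, h3])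
  have h6 : Z ∈ (ad D).maxGenEigenspace ((2 : ℕ) : Ω) := by
    rw [Module.End.mem_maxGenEigenspace]
    refine ⟨1, ?_⟩
    rw [pow_one, LinearMap.sub_apply, LinearMap.smul_apply, Module.End.one_apply, had, hZ]
    simp
  refine (h5 2).injOn h6 (zero_mem _) ?_
  change (ad N ^ 2) Z = (ad N ^ 2) 0
  rw [pow_two, Module.End.mul_apply, had N Z, hNZ, map_zero, map_zero]

/-- Two operators `D₁`, `D₂` with integral eigenvalues, and two commuting operators `N₁`, `N₂` with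
the hard Lefschetz property with respect to `D₁` and `D₂`: then `N₁ + N₂` has the hard Lefschetz
property with respect to `D₁ + D₂`. -/
theorem lefschetz_sum {D₁ D₂ N₁ N₂ : Module.End Ω U}
    (ht1 : (⨆ j : ℤ, D₁.eigenspace (j : Ω)) = ⊤) (ht2 : (⨆ j : ℤ, D₂.eigenspace (j : Ω)) = ⊤)
    (hD : D₁ * D₂ = D₂ * D₁) (hN : N₁ * N₂ = N₂ * N₁)
    (h11 : D₁ * N₁ - N₁ * D₁ = -(2 : Ω) • N₁) (h22 : D₂ * N₂ - N₂ * D₂ = -(2 : Ω) • N₂)
    (h12 : D₁ * N₂ = N₂ * D₁) (h21 : D₂ * N₁ = N₁ * D₂)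
    (hb1 : ∀ j : ℕ, Set.BijOn (⇑(N₁ ^ j)) (D₁.eigenspace (j : Ω) : Set U)
      (D₁.eigenspace (-(j : Ω)) : Set U))
    (hb2 : ∀ j : ℕ, Set.BijOn (⇑(N₂ ^ j)) (D₂.eigenspace (j : Ω) : Set U)
      (D₂.eigenspace (-(j : Ω)) : Set U)) (j : ℕ) :
    Set.BijOn (⇑((N₁ + N₂) ^ j)) ((D₁ + D₂).maxGenEigenspace (j : Ω) : Set U)
      ((D₁ + D₂).maxGenEigenspace (-(j : Ω)) : Set U) := by
  obtain ⟨ι₁, _, b₁, w₁, hw₁⟩ := P_SL2A.eig_basis D₁ ht1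
  obtain ⟨ι₂, _, b₂, w₂, hw₂⟩ := P_SL2A.eig_basis D₂ ht2
  obtain ⟨X₁, hX1, hX1'⟩ := P_SL2A.exists_X hw₁ h11 hb1
  obtain ⟨X₂, hX2, hX2'⟩ := P_SL2A.exists_X hw₂ h22 hb2
  -- `X₁` commutes with `N₂`
  have c1 : X₁ * N₂ - N₂ * X₁ = 0 := by
    apply raise_zero hX1 h11 hX1'
    · have : D₁ * (X₁ * N₂ - N₂ * X₁) - (X₁ * N₂ - N₂ * X₁) * D₁ =
          (D₁ * X₁ - X₁ * D₁) * N₂ - N₂ * (D₁ * X₁ - X₁ * D₁) + X₁ * (D₁ * N₂ - N₂ * D₁)
            - (D₁ * N₂ - N₂ * D₁) * X₁ := by noncomm_ring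
      rw [this, hX1, h12, sub_self, mul_zero, zero_mul, smul_mul_assoc, mul_smul_comm, ← smul_sub]
      simp
    · have : N₁ * (X₁ * N₂ - N₂ * X₁) - (X₁ * N₂ - N₂ * X₁) * N₁ =
          N₂ * (X₁ * N₁ - N₁ * X₁) - (X₁ * N₁ - N₁ * X₁) * N₂ + X₁ * (N₁ * N₂ - N₂ * N₁)
            + (N₁ * N₂ - N₂ * N₁) * (-X₁) := by noncomm_ring
      rw [this, hX1', hN, sub_self, mul_zero, zero_mul, ← h12]
      simp
  -- `X₁` commutes with `D₂`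
  have c2 : X₁ * D₂ - D₂ * X₁ = 0 := by
    apply raise_zero hX1 h11 hX1'
    · have : D₁ * (X₁ * D₂ - D₂ * X₁) - (X₁ * D₂ - D₂ * X₁) * D₁ =
          (D₁ * X₁ - X₁ * D₁) * D₂ - D₂ * (D₁ * X₁ - X₁ * D₁) + X₁ * (D₁ * D₂ - D₂ * D₁)
            - (D₁ * D₂ - D₂ * D₁) * X₁ := by noncomm_ring
      rw [this, hX1, hD, sub_self, mul_zero, zero_mul, smul_mul_assoc, mul_smul_comm, ← smul_sub]
      simp
    · have : N₁ * (X₁ * D₂ - D₂ * X₁) - (X₁ * D₂ - D₂ * X₁) * N₁ =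
          D₂ * (X₁ * N₁ - N₁ * X₁) - (X₁ * N₁ - N₁ * X₁) * D₂ - X₁ * (D₂ * N₁ - N₁ * D₂)
            + (D₂ * N₁ - N₁ * D₂) * X₁ := by noncomm_ring
      rw [this, hX1', h21, sub_self, mul_zero, zero_mul, ← hD]
      simp
  -- `X₂` commutes with `N₁`
  have c3 : X₂ * N₁ - N₁ * X₂ = 0 := by
    apply raise_zero hX2 h22 hX2'
    · have : D₂ * (X₂ * N₁ - N₁ * X₂) - (X₂ * N₁ - N₁ * X₂) * D₂ =
          (D₂ * X₂ - X₂ * D₂) * N₁ - N₁ * (D₂ * X₂ - X₂ * D₂) + X₂ * (D₂ * N₁ - N₁ * D₂)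
            - (D₂ * N₁ - N₁ * D₂) * X₂ := by noncomm_ring
      rw [this, hX2, h21, sub_self, mul_zero, zero_mul, smul_mul_assoc, mul_smul_comm, ← smul_sub]
      simp
    · have : N₂ * (X₂ * N₁ - N₁ * X₂) - (X₂ * N₁ - N₁ * X₂) * N₂ =
          N₁ * (X₂ * N₂ - N₂ * X₂) - (X₂ * N₂ - N₂ * X₂) * N₁ - X₂ * (N₁ * N₂ - N₂ * N₁)
            + (N₁ * N₂ - N₂ * N₁) * X₂ := by noncomm_ring
      rw [this, hX2', hN, sub_self, mul_zero, zero_mul, ← h21]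
      simp
  -- `X₂` commutes with `D₁`
  have c4 : X₂ * D₁ - D₁ * X₂ = 0 := by
    apply raise_zero hX2 h22 hX2'
    · have : D₂ * (X₂ * D₁ - D₁ * X₂) - (X₂ * D₁ - D₁ * X₂) * D₂ =
          (D₂ * X₂ - X₂ * D₂) * D₁ - D₁ * (D₂ * X₂ - X₂ * D₂) - X₂ * (D₁ * D₂ - D₂ * D₁)
            + (D₁ * D₂ - D₂ * D₁) * X₂ := by noncomm_ring
      rw [this, hX2, hD, sub_self, mul_zero, zero_mul, smul_mul_assoc, mul_smul_comm, ← smul_sub]
      simp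
    · have : N₂ * (X₂ * D₁ - D₁ * X₂) - (X₂ * D₁ - D₁ * X₂) * N₂ =
          D₁ * (X₂ * N₂ - N₂ * X₂) - (X₂ * N₂ - N₂ * X₂) * D₁ - X₂ * (D₁ * N₂ - N₂ * D₁)
            + (D₁ * N₂ - N₂ * D₁) * X₂ := by noncomm_ring
      rw [this, hX2', h12, sub_self, mul_zero, zero_mul, hD]
      simp
  refine (t_sl2b Ω U (X₁ + X₂) (D₁ + D₂) (N₁ + N₂) ?_ ?_ ?_).2 j
  · have : (D₁ + D₂) * (X₁ + X₂) - (X₁ + X₂) * (D₁ + D₂) =
        (D₁ * X₁ - X₁ * D₁) + (D₂ * X₂ - X₂ * D₂) - (X₁ * D₂ - D₂ * X₁) - (X₂ * D₁ - D₁ * X₂) := by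
      noncomm_ring
    rw [this, hX1, hX2, c2, c4, sub_zero, sub_zero, smul_add]
  · have : (D₁ + D₂) * (N₁ + N₂) - (N₁ + N₂) * (D₁ + D₂) =
        (D₁ * N₁ - N₁ * D₁) + (D₂ * N₂ - N₂ * D₂) + (D₁ * N₂ - N₂ * D₁) + (D₂ * N₁ - N₁ * D₂) := by
      noncomm_ring
    rw [this, h11, h22, h12, h21, sub_self, sub_self, add_zero, add_zero, smul_add]
  · have : (X₁ + X₂) * (N₁ + N₂) - (N₁ + N₂) * (X₁ + X₂) =
        (X₁ * N₁ - N₁ * X₁) + (X₂ * N₂ - N₂ * X₂) + (X₁ * N₂ - N₂ * X₁) + (X₂ * N₁ - N₁ * X₂) := by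
      noncomm_ring
    rw [this, hX1', hX2', c1, c3, add_zero, add_zero]

end Run7.h307.WM
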