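import Pool.Agent.Run7.h307.WM.Wt
import Pool.Agent.Run7.h307.WM.Sl2

/-!
# Generic members of a family of nilpotent operators `N₂ + c N₁`: sequences
-/

set_option autoImplicit false

namespace Run7.h307.WM

open Module Pool.Agent.Y143 Pool.Agent.N184.HP Pool.Agent.N184.HK

variable {Ω V : Type} [Field Ω] [CharZero Ω] [AddCommGroup V] [Module Ω V]

/-- Two commuting operators `N₁`, `N₂`, such that the graded pieces of the monodromy filtration `M`
of `N₁` are mw pure with respect to `N₂`, of weight `n + j`. -/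
structure Hyp (q : ℕ) (n : ℤ) (Φ N₁ N₂ : Module.End Ω V) (M : ℤ → Submodule Ω V) : Prop where
  hq : 1 < q
  mon : IsMonodromyFiltration N₁ M
  stab : ∀ a x, x ∈ M a → Φ x ∈ M a
  stab2 : ∀ a x, x ∈ M a → N₂ x ∈ M a
  comm : ∀ x, N₁ (N₂ x) = N₂ (N₁ x)
  t1 : ∀ x, N₁ (Φ x) = (q : Ω) • Φ (N₁ x)
  t2 : ∀ x, N₂ (Φ x) = (q : Ω) • Φ (N₂ x)
  pure : ∀ j, PureOn q (n + j) Φ N₂ (M j) (M (j - 1))

/-- Families of elements of `V` indexed by pairs of degrees. -/
abbrev Fam (V : Type) : Type := ℤ → ℤ → V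

/-- `N₁` on families. -/
def op1 (N : Module.End Ω V) : Module.End Ω (Fam V) where
  toFun f j b := N (f (j + 2) b)
  map_add' f g := by ext j b; simp
  map_smul' c f := by ext j b; simp

/-- `N₂` on families. -/
def op2 (N : Module.End Ω V) : Module.End Ω (Fam V) where
  toFun f j b := N (f j (b + 2))
  map_add' f g := by ext j b; simp
  map_smul' c f := by ext j b; simp

/-- the first degree -/
def dg1 (Ω V : Type) [Field Ω] [AddCommGroup V] [Module Ω V] : Module.End Ω (Fam V) where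
  toFun f j b := (j : Ω) • f j b
  map_add' f g := by ext j b; simp
  map_smul' c f := by ext j b; simp [smul_comm c]

/-- the second degree -/
def dg2 (Ω V : Type) [Field Ω] [AddCommGroup V] [Module Ω V] : Module.End Ω (Fam V) where
  toFun f j b := (b : Ω) • f j b
  map_add' f g := by ext j b; simp
  map_smul' c f := by ext j b; simp [smul_comm c]

section

variable (q : ℕ) (n : ℤ) (Φ : Module.End Ω V) (M : ℤ → Submodule Ω V) (J B : ℤ)

/-- Families with `f j b` in `M j`, of weight `n + j + b`, supported in a box. -/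
def RR : Submodule Ω (Fam V) where
  carrier := {f | ∀ j b, f j b ∈ M j ∧ f j b ∈ WS q Φ (n + j + b) ∧
    (¬ (|j| ≤ J ∧ |b| ≤ B) → f j b = 0)}
  add_mem' hf hg j b := ⟨(M j).add_mem (hf j b).1 (hg j b).1,
    Submodule.add_mem _ (hf j b).2.1 (hg j b).2.1, fun h => by
      rw [Pi.add_apply, Pi.add_apply, (hf j b).2.2 h, (hg j b).2.2 h, add_zero]⟩
  zero_mem' _ _ := ⟨zero_mem _, zero_mem _, fun _ => rfl⟩
  smul_mem' c _ hf j b := ⟨(M j).smul_mem c (hf j b).1, Submodule.smul_mem _ c (hf j b).2.1,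
    fun h => by
      rw [Pi.smul_apply, Pi.smul_apply, (hf j b).2.2 h, smul_zero]⟩

/-- Families with `f j b` in `M (j - 1)`. -/
def PP : Submodule Ω (Fam V) where
  carrier := {f | ∀ j b, f j b ∈ M (j - 1)}
  add_mem' hf hg j b := (M (j - 1)).add_mem (hf j b) (hg j b)
  zero_mem' _ _ := zero_mem _
  smul_mem' c _ hf j b := (M (j - 1)).smul_mem c (hf j b)

/-- the submodule of `RR` of the families which are zero in the graded space -/
abbrev KK : Submodule Ω (RR q n Φ M J B) := (PP M).comap (RR q n Φ M J B).subtype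

/-- The graded space. -/
abbrev UU : Type := RR q n Φ M J B ⧸ KK q n Φ M J B

variable {q n Φ M J B}

/-- The operator induced on the graded space. -/
def ind (A : Module.End Ω (Fam V)) (hR : ∀ f ∈ RR q n Φ M J B, A f ∈ RR q n Φ M J B)
    (hP : ∀ f ∈ PP M, A f ∈ PP M) : Module.End Ω (UU q n Φ M J B) :=
  Submodule.mapQ _ _ (A.restrict hR) fun _ hf => hP _ hf

/-- the class of a family -/
def cls (f : Fam V) (hf : f ∈ RR q n Φ M J B) : UU q n Φ M J B := Submodule.Quotient.mk ⟨f, hf⟩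

lemma ind_cls {A : Module.End Ω (Fam V)} (hR : ∀ f ∈ RR q n Φ M J B, A f ∈ RR q n Φ M J B)
    (hP : ∀ f ∈ PP M, A f ∈ PP M) {f : Fam V} (hf : f ∈ RR q n Φ M J B) :
    ind A hR hP (cls f hf) = cls (A f) (hR f hf) := rfl

lemma cls_congr {f g : Fam V} (hf : f ∈ RR q n Φ M J B) (hg : g ∈ RR q n Φ M J B) (h : f = g) :
    cls f hf = cls g hg := by subst h; rfl

lemma ind_pow_cls {A : Module.End Ω (Fam V)} (hR : ∀ f ∈ RR q n Φ M J B, A f ∈ RR q n Φ M J B)
    (hP : ∀ f ∈ PP M, A f ∈ PP M) (k : ℕ) {f : Fam V} (hf : f ∈ RR q n Φ M J B) :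
    ∃ h, (ind A hR hP ^ k) (cls f hf) = cls ((A ^ k) f) h := by
  induction k with
  | zero => exact ⟨hf, by simp⟩
  | succ k ih =>
    obtain ⟨h, e⟩ := ih
    refine ⟨by rw [pow_succ', Module.End.mul_apply]; exact hR _ h, ?_⟩
    rw [pow_succ', Module.End.mul_apply, e, ind_cls]
    apply cls_congr
    rw [pow_succ' A, Module.End.mul_apply]

lemma cls_surj (u : UU q n Φ M J B) : ∃ f, ∃ hf : f ∈ RR q n Φ M J B, u = cls f hf := by
  obtain ⟨⟨f, hf⟩, rfl⟩ := Submodule.Quotient.mk_surjective _ u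
  exact ⟨f, hf, rfl⟩

lemma cls_eq_zero {f : Fam V} (hf : f ∈ RR q n Φ M J B) :
    cls f hf = 0 ↔ ∀ j b, f j b ∈ M (j - 1) := by
  unfold cls
  rw [Submodule.Quotient.mk_eq_zero]
  rfl

lemma cls_smul {f : Fam V} (hf : f ∈ RR q n Φ M J B) (c : Ω) :
    c • cls f hf = cls (c • f) (Submodule.smul_mem _ c hf) := rfl

lemma cls_sub {f g : Fam V} (hf : f ∈ RR q n Φ M J B) (hg : g ∈ RR q n Φ M J B) :
    cls f hf - cls g hg = cls (f - g) (Submodule.sub_mem _ hf hg) := rfl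

lemma cls_eq {f g : Fam V} (hf : f ∈ RR q n Φ M J B) (hg : g ∈ RR q n Φ M J B) :
    cls f hf = cls g hg ↔ ∀ j b, f j b - g j b ∈ M (j - 1) := by
  rw [← sub_eq_zero, cls_sub, cls_eq_zero]
  rfl

instance [FiniteDimensional Ω V] : FiniteDimensional Ω (UU q n Φ M J B) := by
  have h : FiniteDimensional Ω (RR q n Φ M J B) := by
    let r : RR q n Φ M J B →ₗ[Ω] (Finset.Icc (-J) J → Finset.Icc (-B) B → V) :=
      { toFun := fun f j b => f.1 j b
        map_add' := fun f g => rfl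
        map_smul' := fun c f => rfl }
    apply Module.Finite.of_injective r
    rw [← LinearMap.ker_eq_bot, LinearMap.ker_eq_bot']
    rintro ⟨f, hf⟩ h
    apply Subtype.ext
    funext j b
    by_cases hbox : |j| ≤ J ∧ |b| ≤ B
    · have h1 := congrFun (congrFun h ⟨j, Finset.mem_Icc.2 (abs_le.1 hbox.1)⟩)
        ⟨b, Finset.mem_Icc.2 (abs_le.1 hbox.2)⟩
      exact h1
    · exact (hf j b).2.2 hbox
  infer_instance

end

namespace Hyp

variable {q : ℕ} {n : ℤ} {Φ N₁ N₂ : Module.End Ω V} {M : ℤ → Submodule Ω V} {J B : ℤ}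
  (H : Hyp q n Φ N₁ N₂ M)
include H

lemma op1_RR (hJ : M (-J - 1) = ⊥) {f : Fam V} (hf : f ∈ RR q n Φ M J B) :
    op1 N₁ f ∈ RR q n Φ M J B := by
  intro j b
  have h1 : N₁ (f (j + 2) b) ∈ M j := by
    have := H.mon.map _ _ (hf (j + 2) b).1
    rwa [add_sub_cancel_right] at this
  refine ⟨h1, ?_, ?_⟩
  · have := N_pow_WS H.hq H.t1 1 (w' := n + j + b) (by push_cast; ring) (hf (j + 2) b).2.1
    rw [pow_one] at this
    exact this
  · intro hbox
    show N₁ (f (j + 2) b) = 0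
    by_cases h2 : |j + 2| ≤ J ∧ |b| ≤ B
    · have h3 : ¬ |j| ≤ J := fun h => hbox ⟨h, h2.2⟩
      have h4 : j ≤ -J - 1 := by
        rw [abs_le] at h2
        by_contra h5
        exact h3 (abs_le.2 ⟨by omega, by omega⟩)
      have h5 := H.mon.mono h4 h1
      rwa [hJ, Submodule.mem_bot] at h5
    · rw [(hf (j + 2) b).2.2 h2, map_zero]

lemma op1_PP {f : Fam V} (hf : f ∈ PP M) : op1 N₁ f ∈ PP M := by
  intro j b
  have := H.mon.map _ _ (hf (j + 2) b)
  rwa [show j + 2 - 1 - 2 = j - 1 by ring] at this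

lemma op2_RR (hB : ∀ v, v < n + J - B → WS q Φ v = ⊥) {f : Fam V} (hf : f ∈ RR q n Φ M J B) :
    op2 N₂ f ∈ RR q n Φ M J B := by
  intro j b
  have h1 : N₂ (f j (b + 2)) ∈ WS q Φ (n + j + b) := by
    have := N_pow_WS H.hq H.t2 1 (w' := n + j + b) (by push_cast; ring) (hf j (b + 2)).2.1
    simpa using this
  refine ⟨H.stab2 _ _ (hf j (b + 2)).1, h1, ?_⟩
  intro hbox
  show N₂ (f j (b + 2)) = 0
  by_cases h2 : |j| ≤ J ∧ |b + 2| ≤ B
  · have h3 : ¬ |b| ≤ B := fun h => hbox ⟨h2.1, h⟩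
    rw [abs_le, abs_le] at h2
    have h4 : b < -B := by
      by_contra h5
      exact h3 (abs_le.2 ⟨by omega, by omega⟩)
    rw [hB _ (by omega), Submodule.mem_bot] at h1
    exact h1
  · rw [(hf j (b + 2)).2.2 h2, map_zero]

lemma op2_PP {f : Fam V} (hf : f ∈ PP M) : op2 N₂ f ∈ PP M := fun j b => H.stab2 _ _ (hf j (b + 2))

omit H in
lemma dg1_RR {f : Fam V} (hf : f ∈ RR q n Φ M J B) : dg1 Ω V f ∈ RR q n Φ M J B :=
  fun j b => ⟨(M j).smul_mem _ (hf j b).1, Submodule.smul_mem _ _ (hf j b).2.1, fun h => by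
    show (j : Ω) • f j b = 0
    rw [(hf j b).2.2 h, smul_zero]⟩

omit H in
lemma dg2_RR {f : Fam V} (hf : f ∈ RR q n Φ M J B) : dg2 Ω V f ∈ RR q n Φ M J B :=
  fun j b => ⟨(M j).smul_mem _ (hf j b).1, Submodule.smul_mem _ _ (hf j b).2.1, fun h => by
    show (b : Ω) • f j b = 0
    rw [(hf j b).2.2 h, smul_zero]⟩

omit H in
lemma dg1_PP {f : Fam V} (hf : f ∈ PP M) : dg1 Ω V f ∈ PP M :=
  fun j b => (M (j - 1)).smul_mem _ (hf j b)

omit H in
lemma dg2_PP {f : Fam V} (hf : f ∈ PP M) : dg2 Ω V f ∈ PP M :=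
  fun j b => (M (j - 1)).smul_mem _ (hf j b)

omit H in
lemma op1_pow (N : Module.End Ω V) (k : ℕ) (f : Fam V) (j b : ℤ) :
    (op1 N ^ k) f j b = (N ^ k) (f (j + 2 * k) b) := by
  induction k generalizing j b with
  | zero => simp
  | succ k ih =>
    rw [pow_succ', pow_succ', Module.End.mul_apply, Module.End.mul_apply]
    show N ((op1 N ^ k) f (j + 2) b) = _
    rw [ih, show j + 2 + 2 * (k : ℤ) = j + 2 * ((k + 1 : ℕ) : ℤ) by push_cast; ring]

omit H in
lemma op2_pow (N : Module.End Ω V) (k : ℕ) (f : Fam V) (j b : ℤ) :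
    (op2 N ^ k) f j b = (N ^ k) (f j (b + 2 * k)) := by
  induction k generalizing j b with
  | zero => simp
  | succ k ih =>
    rw [pow_succ', pow_succ', Module.End.mul_apply, Module.End.mul_apply]
    show N ((op2 N ^ k) f j (b + 2)) = _
    rw [ih, show b + 2 + 2 * (k : ℤ) = b + 2 * ((k + 1 : ℕ) : ℤ) by push_cast; ring]

/-- The part of weight `v` of the surjectivity of `N₁ ^ j`. -/
lemma surj1 [IsAlgClosed Ω] [FiniteDimensional Ω V] (j : ℕ) (v : ℤ) {y : V} (hy : y ∈ M (-j))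
    (hyv : y ∈ WS q Φ (v - 2 * j)) : ∃ x ∈ M j, x ∈ WS q Φ v ∧ y - (N₁ ^ j) x ∈ M (-j - 1) := by
  obtain ⟨x, hx, hxy⟩ := H.mon.surj j y hy
  obtain ⟨x1, x2, hx1, hx1w, -, hx2w, hx12⟩ := split (Z := M j) inferInstance (H.stab _)
    (P_TOM.Eq Ω q v) hx
  obtain ⟨m1, m2, hm1, hm1w, -, hm2w, hm12⟩ := split (Z := M (-j - 1)) inferInstance (H.stab _)
    (P_TOM.Eq Ω q (v - 2 * j)) hxy
  refine ⟨x1, hx1, hx1w, ?_⟩
  have h1 : (N₁ ^ j) x1 ∈ WS q Φ (v - 2 * j) := N_pow_WS H.hq H.t1 j rfl hx1w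
  have h2 : (N₁ ^ j) x2 ∈ eig Φ (P_TOM.Eq Ω q (v - 2 * j))ᶜ :=
    P_FRM.N_pow_Wc H.hq H.t1 j v hx2w
  have e : y - (N₁ ^ j) x1 - m1 = (N₁ ^ j) x2 + m2 := by
    have e1 : y - (N₁ ^ j) x1 - m1 - (N₁ ^ j) x2 = m2 := by
      have e2 : m2 = (y - (N₁ ^ j) x) - m1 := by rw [← hm12]; abel
      rw [e2, ← hx12, map_add]
      abel
    rw [← e1]
    abel
  have h3 : y - (N₁ ^ j) x1 - m1 = 0 := by
    apply mem_eig_disj (S := P_TOM.Eq Ω q (v - 2 * j)) (Φ := Φ)
    · exact Submodule.sub_mem _ (Submodule.sub_mem _ hyv h1) hm1w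
    · rw [e]
      exact Submodule.add_mem _ h2 hm2w
  rw [sub_eq_zero] at h3
  rw [h3]
  exact hm1

end Hyp

end Run7.h307.WM
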