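import Pool.Agent.Run7.h307.WM.Gr

/-!
# The graded space satisfies the hypotheses of `lefschetz_sum`
-/

set_option autoImplicit false

namespace Run7.h307.WM

open Module Pool.Agent.Y143 Pool.Agent.N184.HP Pool.Agent.N184.HK

lemma bijOn_of {Ω E : Type} [Field Ω] [AddCommGroup E] [Module Ω E] {A : Module.End Ω E}
    {P Q : Submodule Ω E} (h1 : ∀ x ∈ P, A x ∈ Q) (h2 : ∀ x ∈ P, A x = 0 → x = 0)
    (h3 : ∀ y ∈ Q, ∃ x ∈ P, A x = y) : Set.BijOn A (P : Set E) (Q : Set E) := by
  refine ⟨fun x hx => h1 x hx, fun x hx y hy hxy => ?_, fun y hy => h3 y hy⟩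
  have := h2 (x - y) (P.sub_mem hx hy) (by rw [map_sub, sub_eq_zero]; exact hxy)
  exact sub_eq_zero.1 this

lemma bijOn_of' {Ω E : Type} [Field Ω] [AddCommGroup E] [Module Ω E] {A : Module.End Ω E}
    {P Q : Submodule Ω E} (h1 : ∀ x ∈ P, A x ∈ Q) (h2 : ∀ x ∈ P, A x = 0 → x = 0)
    (h3 : ∀ y ∈ Q, ∃ x ∈ P, A x = y) : Set.BijOn (⇑A) (P : Set E) (Q : Set E) :=
  bijOn_of h1 h2 h3

lemma map_pow_fil {Ω E : Type} [Field Ω] [AddCommGroup E] [Module Ω E] {N : Module.End Ω E}
    {M : ℤ → Submodule Ω E} (h : ∀ a x, x ∈ M a → N x ∈ M (a - 2)) (k : ℕ) :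
    ∀ a x, x ∈ M a → (N ^ k) x ∈ M (a - 2 * k) := by
  induction k with
  | zero => intro a x hx; simpa using hx
  | succ k ih =>
    intro a x hx
    have := h _ _ (ih a x hx)
    rw [pow_succ', Module.End.mul_apply]
    rwa [show a - 2 * (k : ℤ) - 2 = a - 2 * ((k + 1 : ℕ) : ℤ) by push_cast; ring] at this

variable {Ω V : Type} [Field Ω] [CharZero Ω] [AddCommGroup V] [Module Ω V]

/-- the column `j` of a family -/
def col (j : ℤ) (f : Fam V) : Fam V := fun i b => if i = j then f i b else 0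

/-- the row `b` of a family -/
def row (b : ℤ) (f : Fam V) : Fam V := fun j i => if i = b then f j i else 0

section

variable {q : ℕ} {n : ℤ} {Φ : Module.End Ω V} {M : ℤ → Submodule Ω V} {J B : ℤ}

lemma col_RR {j : ℤ} {f : Fam V} (hf : f ∈ RR q n Φ M J B) : col j f ∈ RR q n Φ M J B := by
  intro i b
  unfold col
  by_cases h : i = j
  · simp only [h, if_true]
    subst h
    exact hf i b
  · simp only [h, if_false]
    exact ⟨zero_mem _, zero_mem _, fun _ => trivial⟩

lemma row_RR {b : ℤ} {f : Fam V} (hf : f ∈ RR q n Φ M J B) : row b f ∈ RR q n Φ M J B := by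
  intro j i
  unfold row
  by_cases h : i = b
  · simp only [h, if_true]
    subst h
    exact hf j i
  · simp only [h, if_false]
    exact ⟨zero_mem _, zero_mem _, fun _ => trivial⟩

lemma mem_eig1 (hR : ∀ f ∈ RR q n Φ M J B, dg1 Ω V f ∈ RR q n Φ M J B)
    (hP : ∀ f ∈ PP M, dg1 Ω V f ∈ PP M) {f : Fam V} (hf : f ∈ RR q n Φ M J B) (c : Ω) :
    cls f hf ∈ (ind (dg1 Ω V) hR hP).eigenspace c ↔
      ∀ i b : ℤ, ((i : Ω) - c) • f i b ∈ M (i - 1) := by
  rw [Module.End.mem_eigenspace_iff, ind_cls, cls_smul, cls_eq]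
  constructor <;> intro h i b
  · have := h i b
    rw [sub_smul]
    exact this
  · have := h i b
    rw [sub_smul] at this
    exact this

lemma mem_eig2 (hR : ∀ f ∈ RR q n Φ M J B, dg2 Ω V f ∈ RR q n Φ M J B)
    (hP : ∀ f ∈ PP M, dg2 Ω V f ∈ PP M) {f : Fam V} (hf : f ∈ RR q n Φ M J B) (c : Ω) :
    cls f hf ∈ (ind (dg2 Ω V) hR hP).eigenspace c ↔
      ∀ i b : ℤ, ((b : Ω) - c) • f i b ∈ M (i - 1) := by
  rw [Module.End.mem_eigenspace_iff, ind_cls, cls_smul, cls_eq]
  constructor <;> intro h i b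
  · have := h i b
    rw [sub_smul]
    exact this
  · have := h i b
    rw [sub_smul] at this
    exact this

lemma top_eig1 (hR : ∀ f ∈ RR q n Φ M J B, dg1 Ω V f ∈ RR q n Φ M J B)
    (hP : ∀ f ∈ PP M, dg1 Ω V f ∈ PP M) :
    (⨆ j : ℤ, (ind (dg1 Ω V) hR hP).eigenspace (j : Ω)) = ⊤ := by
  rw [eq_top_iff]
  intro u _
  obtain ⟨f, hf, rfl⟩ := cls_surj u
  have e : (⟨f, hf⟩ : RR q n Φ M J B) = ∑ j ∈ Finset.Icc (-J) J, ⟨col j f, col_RR hf⟩ := by
    apply Subtype.ext
    rw [AddSubmonoidClass.coe_finsetSum]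
    funext i b
    rw [Finset.sum_apply, Finset.sum_apply]
    simp only [col]
    rw [Finset.sum_ite_eq]
    by_cases h : i ∈ Finset.Icc (-J) J
    · rw [if_pos h]
    · rw [if_neg h]
      refine (hf i b).2.2 fun h2 => h (Finset.mem_Icc.2 (abs_le.1 h2.1))
  have e2 : cls f hf = ∑ j ∈ Finset.Icc (-J) J, cls (col j f) (col_RR hf) := by
    unfold cls
    rw [e]
    exact map_sum (KK q n Φ M J B).mkQ _ _
  rw [e2]
  refine Submodule.sum_mem _ fun j _ => Submodule.mem_iSup_of_mem j ?_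
  rw [mem_eig1]
  intro i b
  unfold col
  by_cases h : i = j
  · rw [h, sub_self, zero_smul]; exact zero_mem _
  · rw [if_neg h, smul_zero]; exact zero_mem _

lemma top_eig2 (hR : ∀ f ∈ RR q n Φ M J B, dg2 Ω V f ∈ RR q n Φ M J B)
    (hP : ∀ f ∈ PP M, dg2 Ω V f ∈ PP M) :
    (⨆ j : ℤ, (ind (dg2 Ω V) hR hP).eigenspace (j : Ω)) = ⊤ := by
  rw [eq_top_iff]
  intro u _
  obtain ⟨f, hf, rfl⟩ := cls_surj u
  have e : (⟨f, hf⟩ : RR q n Φ M J B) = ∑ j ∈ Finset.Icc (-B) B, ⟨row j f, row_RR hf⟩ := by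
    apply Subtype.ext
    rw [AddSubmonoidClass.coe_finsetSum]
    funext i b
    rw [Finset.sum_apply, Finset.sum_apply]
    simp only [row]
    rw [Finset.sum_ite_eq]
    by_cases h : b ∈ Finset.Icc (-B) B
    · rw [if_pos h]
    · rw [if_neg h]
      refine (hf i b).2.2 fun h2 => h (Finset.mem_Icc.2 (abs_le.1 h2.2))
  have e2 : cls f hf = ∑ j ∈ Finset.Icc (-B) B, cls (row j f) (row_RR hf) := by
    unfold cls
    rw [e]
    exact map_sum (KK q n Φ M J B).mkQ _ _
  rw [e2]
  refine Submodule.sum_mem _ fun j _ => Submodule.mem_iSup_of_mem j ?_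
  rw [mem_eig2]
  intro i b
  unfold row
  by_cases h : b = j
  · rw [h, sub_self, zero_smul]; exact zero_mem _
  · rw [if_neg h, smul_zero]; exact zero_mem _

end

namespace Hyp

variable {q : ℕ} {n : ℤ} {Φ N₁ N₂ : Module.End Ω V} {M : ℤ → Submodule Ω V} {J B : ℤ}
  (H : Hyp q n Φ N₁ N₂ M) (hJ : M (-J - 1) = ⊥) (hB : ∀ v, v < n + J - B → WS q Φ v = ⊥)

include H

/-- `N₁` on the graded space -/
noncomputable def n1 (hJ : M (-J - 1) = ⊥) : Module.End Ω (UU q n Φ M J B) :=
  ind (op1 N₁) (fun _ hf => H.op1_RR hJ hf) (fun _ hf => H.op1_PP hf)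

/-- `N₂` on the graded space -/
noncomputable def n2 (hB : ∀ v, v < n + J - B → WS q Φ v = ⊥) :
    Module.End Ω (UU q n Φ M J B) :=
  ind (op2 N₂) (fun _ hf => H.op2_RR hB hf) (fun _ hf => H.op2_PP hf)

omit H in
variable (q n Φ M J B) in
/-- the first degree on the graded space -/
noncomputable def d1 : Module.End Ω (UU q n Φ M J B) :=
  ind (dg1 Ω V) (fun _ hf => dg1_RR hf) (fun _ hf => dg1_PP hf)

omit H in
variable (q n Φ M J B) in
/-- the second degree on the graded space -/
noncomputable def d2 : Module.End Ω (UU q n Φ M J B) :=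
  ind (dg2 Ω V) (fun _ hf => dg2_RR hf) (fun _ hf => dg2_PP hf)

lemma n1_bij (j : ℕ) [IsAlgClosed Ω] [FiniteDimensional Ω V] :
    Set.BijOn (⇑((H.n1 (B := B) hJ) ^ j)) ((d1 q n Φ M J B).eigenspace (j : Ω) : Set _)
      ((d1 q n Φ M J B).eigenspace (-(j : Ω)) : Set _) := by
  apply bijOn_of
  · intro u hu
    obtain ⟨f, hf, rfl⟩ := cls_surj u
    obtain ⟨h, e⟩ := ind_pow_cls (fun _ hf => H.op1_RR hJ hf) (fun _ hf => H.op1_PP hf) j hf
    unfold n1
    rw [e]
    unfold d1 at hu ⊢
    rw [mem_eig1] at hu ⊢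
    intro i b
    rw [op1_pow]
    have h1 := map_pow_fil H.mon.map j _ _ (hu (i + 2 * j) b)
    rw [map_smul] at h1
    have h2 : (((i + 2 * (j : ℤ) : ℤ) : Ω) - (j : Ω)) = (i : Ω) - -(j : Ω) := by push_cast; ring
    rw [h2, show i + 2 * (j : ℤ) - 1 - 2 * j = i - 1 by ring] at h1
    exact h1
  · intro u hu hu0
    obtain ⟨f, hf, rfl⟩ := cls_surj u
    obtain ⟨h, e⟩ := ind_pow_cls (fun _ hf => H.op1_RR hJ hf) (fun _ hf => H.op1_PP hf) j hf
    unfold n1 at hu0
    rw [e, cls_eq_zero] at hu0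
    unfold d1 at hu
    rw [mem_eig1] at hu
    rw [cls_eq_zero]
    intro i b
    by_cases hij : i = j
    · subst hij
      have h1 := hu0 (-(j : ℤ)) b
      rw [op1_pow, show -(j : ℤ) + 2 * j = j by ring] at h1
      exact H.mon.inj j _ (hf j b).1 h1
    · have h1 := hu i b
      rwa [Submodule.smul_mem_iff] at h1
      rw [sub_ne_zero]
      exact_mod_cast hij
  · intro u hu
    obtain ⟨f, hf, rfl⟩ := cls_surj u
    unfold d1 at hu
    rw [mem_eig1] at hu
    have key : ∀ b : ℤ, ∃ x ∈ M j, x ∈ WS q Φ (n + j + b) ∧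
        f (-j) b - (N₁ ^ j) x ∈ M (-j - 1) ∧ (¬ (|(j : ℤ)| ≤ J ∧ |b| ≤ B) → x = 0) := by
      intro b
      by_cases hb : |(j : ℤ)| ≤ J ∧ |b| ≤ B
      · obtain ⟨x, hx, hxw, hxy⟩ := H.surj1 j (n + j + b) (hf (-j) b).1 (by
          have := (hf (-j) b).2.1
          rwa [show n + -(j : ℤ) + b = n + j + b - 2 * j by ring] at this)
        exact ⟨x, hx, hxw, hxy, fun h => absurd hb h⟩
      · refine ⟨0, zero_mem _, zero_mem _, ?_, fun _ => rfl⟩
        rw [(hf (-j) b).2.2 (by rwa [abs_neg]), map_zero, sub_zero]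
        exact zero_mem _
    choose x hx hxw hxy hx0 using key
    let g : Fam V := fun i b => if i = j then x b else 0
    have hg : g ∈ RR q n Φ M J B := by
      intro i b
      by_cases hi : i = j
      · subst hi
        have e : g (j : ℤ) b = x b := if_pos rfl
        rw [e]
        exact ⟨hx b, hxw b, hx0 b⟩
      · have e : g i b = 0 := if_neg hi
        rw [e]
        exact ⟨zero_mem _, zero_mem _, fun _ => rfl⟩
    refine ⟨cls g hg, ?_, ?_⟩
    · unfold d1
      rw [mem_eig1]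
      intro i b
      by_cases hi : i = j
      · subst hi
        have e2 : (((j : ℤ) : Ω) - (j : Ω)) = 0 := by push_cast; ring
        rw [e2, zero_smul]
        exact zero_mem _
      · have e : g i b = 0 := if_neg hi
        rw [e, smul_zero]
        exact zero_mem _
    · obtain ⟨h, e⟩ := ind_pow_cls (fun _ hf => H.op1_RR hJ hf) (fun _ hf => H.op1_PP hf) j hg
      unfold n1
      rw [e, cls_eq]
      intro i b
      rw [op1_pow]
      by_cases hi : i = -j
      · subst hi
        rw [show -(j : ℤ) + 2 * j = j by ring]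
        have e : g (j : ℤ) b = x b := if_pos rfl
        have h5 := neg_mem (hxy b)
        rw [neg_sub] at h5
        rw [e]
        exact h5
      · have e : g (i + 2 * j) b = 0 := if_neg (by omega)
        rw [e, map_zero, zero_sub]
        have h1 := hu i b
        rw [Submodule.smul_mem_iff] at h1
        · exact neg_mem h1
        · rw [sub_ne_zero]
          exact_mod_cast hi

lemma n2_bij (b : ℕ) :
    Set.BijOn (⇑((H.n2 hB) ^ b)) ((d2 q n Φ M J B).eigenspace (b : Ω) : Set _)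
      ((d2 q n Φ M J B).eigenspace (-(b : Ω)) : Set _) := by
  have hst : ∀ (k : ℕ) (a : ℤ) (x : V), x ∈ M a → (N₂ ^ k) x ∈ M a := by
    intro k
    induction k with
    | zero => intro a x hx; simpa using hx
    | succ k ih =>
      intro a x hx
      rw [pow_succ, Module.End.mul_apply]
      exact ih _ _ (H.stab2 _ _ hx)
  apply bijOn_of
  · intro u hu
    obtain ⟨f, hf, rfl⟩ := cls_surj u
    obtain ⟨h, e⟩ := ind_pow_cls (fun _ hf => H.op2_RR hB hf) (fun _ hf => H.op2_PP hf) b hf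
    unfold n2
    rw [e]
    unfold d2 at hu ⊢
    rw [mem_eig2] at hu ⊢
    intro j i
    rw [op2_pow]
    have h1 := hst b _ _ (hu j (i + 2 * b))
    rw [map_smul] at h1
    have h2 : (((i + 2 * (b : ℤ) : ℤ) : Ω) - (b : Ω)) = (i : Ω) - -(b : Ω) := by push_cast; ring
    rw [h2] at h1
    exact h1
  · intro u hu hu0
    obtain ⟨f, hf, rfl⟩ := cls_surj u
    obtain ⟨h, e⟩ := ind_pow_cls (fun _ hf => H.op2_RR hB hf) (fun _ hf => H.op2_PP hf) b hf
    unfold n2 at hu0
    rw [e, cls_eq_zero] at hu0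
    unfold d2 at hu
    rw [mem_eig2] at hu
    rw [cls_eq_zero]
    intro j i
    by_cases hib : i = b
    · subst hib
      have h1 := hu0 j (-(b : ℤ))
      rw [op2_pow, show -(b : ℤ) + 2 * b = b by ring] at h1
      exact (H.pure j).inj b _ (hf j b).1 (hf j b).2.1 h1
    · have h1 := hu j i
      rwa [Submodule.smul_mem_iff] at h1
      rw [sub_ne_zero]
      exact_mod_cast hib
  · intro u hu
    obtain ⟨f, hf, rfl⟩ := cls_surj u
    unfold d2 at hu
    rw [mem_eig2] at hu
    have key : ∀ j : ℤ, ∃ x ∈ M j, x ∈ WS q Φ (n + j + b) ∧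
        f j (-b) - (N₂ ^ b) x ∈ M (j - 1) ∧ (¬ (|j| ≤ J ∧ |(b : ℤ)| ≤ B) → x = 0) := by
      intro j
      by_cases hb : |j| ≤ J ∧ |(b : ℤ)| ≤ B
      · obtain ⟨x, hx, hxw, hxy⟩ := (H.pure j).surj b _ (hf j (-b)).1 (by
          have := (hf j (-b)).2.1
          rwa [show n + j + -(b : ℤ) = n + j - b by ring] at this)
        exact ⟨x, hx, hxw, hxy, fun h => absurd hb h⟩
      · refine ⟨0, zero_mem _, zero_mem _, ?_, fun _ => rfl⟩
        rw [(hf j (-b)).2.2 (by rwa [abs_neg]), map_zero, sub_zero]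
        exact zero_mem _
    choose x hx hxw hxy hx0 using key
    let g : Fam V := fun j i => if i = b then x j else 0
    have hg : g ∈ RR q n Φ M J B := by
      intro j i
      by_cases hi : i = b
      · subst hi
        have e : g j (b : ℤ) = x j := if_pos rfl
        rw [e]
        exact ⟨hx j, hxw j, hx0 j⟩
      · have e : g j i = 0 := if_neg hi
        rw [e]
        exact ⟨zero_mem _, zero_mem _, fun _ => rfl⟩
    refine ⟨cls g hg, ?_, ?_⟩
    · unfold d2
      rw [mem_eig2]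
      intro j i
      by_cases hi : i = b
      · subst hi
        have e2 : (((b : ℤ) : Ω) - (b : Ω)) = 0 := by push_cast; ring
        rw [e2, zero_smul]
        exact zero_mem _
      · have e : g j i = 0 := if_neg hi
        rw [e, smul_zero]
        exact zero_mem _
    · obtain ⟨h, e⟩ := ind_pow_cls (fun _ hf => H.op2_RR hB hf) (fun _ hf => H.op2_PP hf) b hg
      unfold n2
      rw [e, cls_eq]
      intro j i
      rw [op2_pow]
      by_cases hi : i = -b
      · subst hi
        rw [show -(b : ℤ) + 2 * b = b by ring]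
        have e : g j (b : ℤ) = x j := if_pos rfl
        have h5 := neg_mem (hxy j)
        rw [neg_sub] at h5
        rw [e]
        exact h5
      · have e : g j (i + 2 * b) = 0 := if_neg (by omega)
        rw [e, map_zero, zero_sub]
        have h1 := hu j i
        rw [Submodule.smul_mem_iff] at h1
        · exact neg_mem h1
        · rw [sub_ne_zero]
          exact_mod_cast hi

omit H in
lemma endo_ext {A A' : Module.End Ω (UU q n Φ M J B)}
    (h : ∀ f (hf : f ∈ RR q n Φ M J B), A (cls f hf) = A' (cls f hf)) : A = A' := by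
  apply LinearMap.ext
  intro u
  obtain ⟨f, hf, rfl⟩ := cls_surj u
  exact h f hf

include hJ hB in
/-- The hard Lefschetz property of `N₁ + N₂` on the graded space. -/
theorem lef [IsAlgClosed Ω] [FiniteDimensional Ω V] (a : ℕ) {f : Fam V}
    (hf : f ∈ RR q n Φ M J B) (hdeg : ∀ j b : ℤ, j + b ≠ a → f j b = 0)
    (h0 : ∀ j b, ((op1 N₁ + op2 N₂) ^ a) f j b ∈ M (j - 1)) : ∀ j b, f j b ∈ M (j - 1) := by
  have main := lefschetz_sum (D₁ := d1 q n Φ M J B) (D₂ := d2 q n Φ M J B)
    (N₁ := H.n1 (B := B) hJ) (N₂ := H.n2 hB) (top_eig1 _ _) (top_eig2 _ _)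
    (by
      apply endo_ext
      intro f hf
      rw [Module.End.mul_apply, Module.End.mul_apply]
      unfold d1 d2
      rw [ind_cls, ind_cls, ind_cls, ind_cls]
      apply cls_congr
      funext j b
      exact smul_comm _ _ _)
    (by
      apply endo_ext
      intro f hf
      rw [Module.End.mul_apply, Module.End.mul_apply]
      unfold n1 n2
      rw [ind_cls, ind_cls, ind_cls, ind_cls]
      apply cls_congr
      funext j b
      exact H.comm _)
    (by
      apply endo_ext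
      intro f hf
      rw [LinearMap.sub_apply, LinearMap.smul_apply, Module.End.mul_apply, Module.End.mul_apply]
      unfold n1 d1
      rw [ind_cls, ind_cls, ind_cls, ind_cls, cls_sub, cls_smul]
      apply cls_congr
      funext j b
      change (j : Ω) • N₁ (f (j + 2) b) - N₁ (((j + 2 : ℤ) : Ω) • f (j + 2) b) =
        -(2 : Ω) • N₁ (f (j + 2) b)
      rw [map_smul, ← sub_smul]
      congr 1
      push_cast
      ring)
    (by
      apply endo_ext
      intro f hf
      rw [LinearMap.sub_apply, LinearMap.smul_apply, Module.End.mul_apply, Module.End.mul_apply]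
      unfold n2 d2
      rw [ind_cls, ind_cls, ind_cls, ind_cls, cls_sub, cls_smul]
      apply cls_congr
      funext j b
      change (b : Ω) • N₂ (f j (b + 2)) - N₂ (((b + 2 : ℤ) : Ω) • f j (b + 2)) =
        -(2 : Ω) • N₂ (f j (b + 2))
      rw [map_smul, ← sub_smul]
      congr 1
      push_cast
      ring)
    (by
      apply endo_ext
      intro f hf
      rw [Module.End.mul_apply, Module.End.mul_apply]
      unfold n2 d1
      rw [ind_cls, ind_cls, ind_cls, ind_cls]
      apply cls_congr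
      funext j b
      change (j : Ω) • N₂ (f j (b + 2)) = N₂ ((j : Ω) • f j (b + 2))
      rw [map_smul])
    (by
      apply endo_ext
      intro f hf
      rw [Module.End.mul_apply, Module.End.mul_apply]
      unfold n1 d2
      rw [ind_cls, ind_cls, ind_cls, ind_cls]
      apply cls_congr
      funext j b
      change (b : Ω) • N₁ (f (j + 2) b) = N₁ ((b : Ω) • f (j + 2) b)
      rw [map_smul])
    (fun j => H.n1_bij hJ j) (fun b => H.n2_bij hB b) a
  have hR : ∀ f ∈ RR q n Φ M J B, (op1 N₁ + op2 N₂) f ∈ RR q n Φ M J B := fun f hf =>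
    Submodule.add_mem _ (H.op1_RR hJ hf) (H.op2_RR hB hf)
  have hP : ∀ f ∈ PP M, (op1 N₁ + op2 N₂) f ∈ PP M := fun f hf =>
    Submodule.add_mem _ (H.op1_PP hf) (H.op2_PP hf)
  have esum : H.n1 (B := B) hJ + H.n2 hB = ind (op1 N₁ + op2 N₂) hR hP := by
    apply endo_ext
    intro f hf
    rfl
  have h1 : cls f hf ∈ (d1 q n Φ M J B + d2 q n Φ M J B).maxGenEigenspace (a : Ω) := by
    rw [Module.End.mem_maxGenEigenspace]
    refine ⟨1, ?_⟩
    rw [pow_one, LinearMap.sub_apply, LinearMap.add_apply, LinearMap.smul_apply,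
      Module.End.one_apply]
    unfold d1 d2
    rw [ind_cls, ind_cls]
    have : cls (dg1 Ω V f) (dg1_RR hf) + cls (dg2 Ω V f) (dg2_RR hf) - (a : Ω) • cls f hf =
        cls (dg1 Ω V f + dg2 Ω V f - (a : Ω) • f) (Submodule.sub_mem _ (Submodule.add_mem _
          (dg1_RR hf) (dg2_RR hf)) (Submodule.smul_mem _ _ hf)) := rfl
    rw [this, cls_eq_zero]
    intro j b
    have e : (dg1 Ω V f + dg2 Ω V f - (a : Ω) • f) j b = ((j : Ω) + (b : Ω) - (a : Ω)) • f j b := by
      rw [sub_smul, add_smul]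
      rfl
    rw [e]
    by_cases h : j + b = a
    · have : ((j : Ω) + (b : Ω) - (a : Ω)) = 0 := by
        rw [sub_eq_zero]
        exact_mod_cast h
      rw [this, zero_smul]
      exact zero_mem _
    · rw [hdeg j b h, smul_zero]
      exact zero_mem _
  obtain ⟨h, e⟩ := ind_pow_cls hR hP a hf
  rw [← cls_eq_zero hf]
  refine main.injOn h1 (zero_mem _) ?_
  rw [map_zero, esum, e, cls_eq_zero]
  exact h0

end Hyp

end Run7.h307.WM
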