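import Pool.Agent.Run7.h307.WM.Str

/-!
# The weight-monodromy conjecture near a normal crossing fibre
-/

set_option autoImplicit false

namespace Run7.h307.WM

open Module Pool.Agent.Y143

/-- Transport of mw purity. -/
lemma pure_transport {Ω E F : Type} [Field Ω] [CharZero Ω] [AddCommGroup E] [Module Ω E]
    [AddCommGroup F] [Module Ω F] {q : ℕ} {i : ℤ} {Φ N : Module.End Ω E} {Φ' N' : Module.End Ω F}
    (θ : E ≃ₗ[Ω] F) (h : IsMWPure q i Φ N) (hΦ : ∀ x, Φ' (θ x) = θ (Φ x))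
    (hN : ∀ x, N' (θ x) = θ (N x)) : IsMWPure q i Φ' N' := by
  obtain ⟨M, hM, hst, hp⟩ := h
  have hΦ' : ∀ y, θ.symm (Φ' y) = Φ (θ.symm y) := by
    intro y
    obtain ⟨x, rfl⟩ := θ.surjective y
    rw [hΦ, θ.symm_apply_apply, θ.symm_apply_apply]
  have hN' : ∀ y, θ.symm (N' y) = N (θ.symm y) := by
    intro y
    obtain ⟨x, rfl⟩ := θ.surjective y
    rw [hN, θ.symm_apply_apply, θ.symm_apply_apply]
  have hNp : ∀ (a : ℕ) y, θ.symm ((N' ^ a) y) = (N ^ a) (θ.symm y) := by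
    intro a
    induction a with
    | zero => intro y; simp
    | succ a ih =>
      intro y
      rw [pow_succ, Module.End.mul_apply, ih, hN', pow_succ, Module.End.mul_apply]
  refine ⟨fun a => (M a).comap θ.symm.toLinearMap, ⟨?_, ?_, ?_, ?_, ?_, ?_⟩, ?_, ?_⟩
  · intro a b hab x hx
    exact hM.mono hab hx
  · obtain ⟨a, ha⟩ := hM.bot
    refine ⟨a, ?_⟩
    rw [eq_bot_iff]
    intro x hx
    have hx' : θ.symm x ∈ M a := hx
    rw [ha, Submodule.mem_bot, LinearEquiv.map_eq_zero_iff] at hx'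
    rw [hx']
    exact zero_mem _
  · obtain ⟨a, ha⟩ := hM.top
    refine ⟨a, ?_⟩
    rw [eq_top_iff]
    intro x _
    change θ.symm x ∈ M a
    rw [ha]
    trivial
  · intro a x hx
    change θ.symm (N' x) ∈ M (a - 2)
    rw [hN']
    exact hM.map a _ hx
  · intro a x hx h
    refine hM.inj a _ hx ?_
    have : θ.symm ((N' ^ a) x) ∈ M (-a - 1) := h
    rwa [hNp] at this
  · intro a y hy
    obtain ⟨x, hx, hxy⟩ := hM.surj a _ hy
    refine ⟨θ x, ?_, ?_⟩
    · change θ.symm (θ x) ∈ M a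
      rw [θ.symm_apply_apply]
      exact hx
    · change θ.symm (y - (N' ^ a) (θ x)) ∈ M (-a - 1)
      rw [map_sub, hNp, θ.symm_apply_apply]
      exact hxy
  · intro a x hx
    change θ.symm (Φ' x) ∈ M a
    rw [hΦ']
    exact hst a _ hx
  · intro a α x hx hx' h
    refine hp a α _ hx hx' ?_
    have : θ.symm (Φ' x - α • x) ∈ M (a - 1) := h
    rwa [map_sub, map_smul, hΦ'] at this

theorem main {Ω : Type} [Field Ω] [CharZero Ω] [IsAlgClosed Ω] {n q : ℕ} (hq : 1 < q)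
    (X : Family Ω n q) (h : X.StrataPure) :
    ∃ S : Finset ℚ, ∀ t : X.fibres.Point, (X.fibres.val t / X.fibres.ram t : ℚ) ∉ S →
      ∀ i : ℕ, IsMWPure (q ^ X.fibres.deg t) i (X.fibres.frob t i) (X.fibres.mon t i) := by
  obtain ⟨S, hS⟩ := Degeneration.main (X := X.toDegeneration) hq h
  have hX := X.locallyConstant
  refine ⟨S, fun t ht i => ?_⟩
  exact pure_transport (X.fibres.θ t i) (hS i _ _ (X.fibres.deg t) (hX.ram_pos t) ht (X.fibres.κ t)
    (X.fibres.μ t)) (hX.frob_θ t i) (hX.mon_θ t i)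

end Run7.h307.WM
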