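import Pool.Agent.Run7.h307.WM.Lef

/-!
# Sequences killed by a power of `N₂ + X N₁`
-/

set_option autoImplicit false

namespace Run7.h307.WM

open Module Pool.Agent.Y143 Pool.Agent.N184.HP Pool.Agent.N184.HK

variable {Ω V : Type} [Field Ω] [CharZero Ω] [AddCommGroup V] [Module Ω V]

/-- The operator `N₂ + X N₁` on sequences (the coefficients of power series). -/
def TT (N₁ N₂ : Module.End Ω V) : Module.End Ω (ℤ → V) where
  toFun x m := N₂ (x m) + N₁ (x (m - 1))
  map_add' x y := by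
    ext m
    simp only [Pi.add_apply, map_add]
    abel
  map_smul' c x := by
    ext m
    simp only [Pi.smul_apply, map_smul, smul_add, RingHom.id_apply]

/-- A sequence as a family: `x m` in the degree `δ - 2 m`. -/
def emb (n : ℤ) (x : ℤ → V) (δ v : ℤ) : Fam V := fun j b =>
  if n + j + b = v ∧ 2 ∣ δ - j then x ((δ - j) / 2) else 0

omit [CharZero Ω] in
lemma emb_TT (N₁ N₂ : Module.End Ω V) (n : ℤ) (x : ℤ → V) (δ v : ℤ) :
    (op1 N₁ + op2 N₂) (emb n x δ v) = emb n (TT N₁ N₂ x) δ (v - 2) := by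
  funext j b
  change N₁ (emb n x δ v (j + 2) b) + N₂ (emb n x δ v j (b + 2)) = _
  unfold emb
  by_cases h : n + j + b = v - 2 ∧ 2 ∣ δ - j
  · rw [if_pos (by constructor <;> omega), if_pos (by constructor <;> omega), if_pos h]
    change _ = N₂ (x ((δ - j) / 2)) + N₁ (x ((δ - j) / 2 - 1))
    rw [show (δ - (j + 2)) / 2 = (δ - j) / 2 - 1 by omega, add_comm]
  · rw [if_neg (by omega), if_neg (by omega), if_neg h, map_zero, map_zero, add_zero]

omit [CharZero Ω] in
lemma emb_TT_pow (N₁ N₂ : Module.End Ω V) (n : ℤ) (x : ℤ → V) (δ v : ℤ) (k : ℕ) :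
    ((op1 N₁ + op2 N₂) ^ k) (emb n x δ v) = emb n ((TT N₁ N₂ ^ k) x) δ (v - 2 * k) := by
  induction k with
  | zero => simp
  | succ k ih =>
    rw [pow_succ', Module.End.mul_apply, ih, emb_TT, pow_succ', Module.End.mul_apply]
    rw [show v - 2 * (k : ℤ) - 2 = v - 2 * ((k + 1 : ℕ) : ℤ) by push_cast; ring]

omit [CharZero Ω] in
lemma WS_bot {Φ : Module.End Ω V} [CharZero Ω] [FiniteDimensional Ω V] {q : ℕ} (hq : 1 < q) :
    ∃ B : ℤ, ∀ v, B < |v| → WS q Φ v = ⊥ := by
  classical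
  obtain ⟨wt, hwt⟩ : ∃ wt : Ω → ℤ, ∀ e w, IsWeilNumber q w e → wt e = w := by
    refine ⟨fun e => if h : ∃ w : ℤ, IsWeilNumber q w e then h.choose else 0, fun e w he => ?_⟩
    have h : ∃ w : ℤ, IsWeilNumber q w e := ⟨w, he⟩
    simp only [dif_pos h]
    exact weight_unique hq h.choose_spec he
  obtain ⟨U, hU⟩ := (Φ.charpoly.roots.toFinset.image fun e => |wt e|).bddAbove
  refine ⟨U, fun v hv => ?_⟩
  rw [eq_bot_iff, P_TOM.WS_eq]
  apply eig_le
  intro α hα x hx
  by_cases h : α ∈ Φ.charpoly.roots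
  · exfalso
    have h1 : |wt α| ≤ U := hU (Finset.mem_coe.2 (Finset.mem_image_of_mem (fun e => |wt e|)
      (Multiset.mem_toFinset.2 h)))
    rw [hwt α v hα] at h1
    omega
  · rwa [maxGen_eq_bot h] at hx

namespace Hyp

variable {q : ℕ} {n : ℤ} {Φ N₁ N₂ : Module.End Ω V} {M : ℤ → Submodule Ω V}
  (H : Hyp q n Φ N₁ N₂ M)

include H

/-- One step down in the filtration. -/
theorem seq_step [IsAlgClosed Ω] [FiniteDimensional Ω V] (a : ℕ) (δ : ℤ) {x : ℤ → V}
    (hx0 : ∀ m < 0, x m = 0) (hxM : ∀ m, x m ∈ M (δ - 2 * m)) (hxw : ∀ m, x m ∈ WS q Φ (n + a))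
    (hT : (TT N₁ N₂ ^ a) x = 0) : ∀ m, x m ∈ M (δ - 1 - 2 * m) := by
  obtain ⟨s, hs⟩ := H.mon.bot
  obtain ⟨B₀, hB₀⟩ := WS_bot (Φ := Φ) H.hq
  obtain ⟨J, hJ⟩ : ∃ J : ℤ, J = |δ| + |s| := ⟨_, rfl⟩
  obtain ⟨B, hB⟩ : ∃ B : ℤ, B = |n| + J + |B₀| + 1 := ⟨_, rfl⟩
  have h1 := abs_nonneg δ
  have h2 := abs_nonneg s
  have h3 := abs_nonneg n
  have h4 := abs_nonneg B₀
  have h1' := le_abs_self δ
  have h2' := neg_abs_le s
  have h3' := le_abs_self n
  have h3'' := neg_abs_le n
  have h4' := le_abs_self B₀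
  have hMJ : M (-J - 1) = ⊥ := by
    rw [eq_bot_iff, ← hs]
    exact H.mon.mono (by omega)
  have hlow : ∀ v, v < n + J - B → WS q Φ v = ⊥ := by
    intro v hv
    apply hB₀
    rw [lt_abs]
    right
    omega
  have hhigh : ∀ v, n - J + B < v → WS q Φ v = ⊥ := by
    intro v hv
    apply hB₀
    rw [lt_abs]
    left
    omega
  have hf : emb n x δ (n + a) ∈ RR q n Φ M J B := by
    intro j b
    unfold emb
    by_cases h : n + j + b = n + a ∧ 2 ∣ δ - j
    · rw [if_pos h]
      refine ⟨?_, ?_, ?_⟩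
      · have := hxM ((δ - j) / 2)
        rwa [show δ - 2 * ((δ - j) / 2) = j by omega] at this
      · rw [h.1]
        exact hxw _
      · intro hbox
        by_cases hj : |j| ≤ J
        · have hb : ¬ |b| ≤ B := fun hb => hbox ⟨hj, hb⟩
          rw [abs_le] at hj
          rw [abs_le] at hb
          have hz : WS q Φ (n + a) = ⊥ := by
            by_cases hb' : B < b
            · exact hhigh _ (by omega)
            · exact hlow _ (by omega)
          have := hxw ((δ - j) / 2)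
          rwa [hz, Submodule.mem_bot] at this
        · rw [abs_le] at hj
          by_cases hj' : J < j
          · exact hx0 _ (by omega)
          · have h5 := hxM ((δ - j) / 2)
            rw [show δ - 2 * ((δ - j) / 2) = j by omega] at h5
            have h6 := H.mon.mono (show j ≤ -J - 1 by omega) h5
            rwa [hMJ, Submodule.mem_bot] at h6
    · rw [if_neg h]
      exact ⟨zero_mem _, zero_mem _, fun _ => rfl⟩
  have key := H.lef hMJ hlow a hf (by
    intro j b hjb
    unfold emb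
    rw [if_neg (by omega)]) (by
    intro j b
    rw [emb_TT_pow, hT]
    unfold emb
    by_cases h : n + j + b = n + a - 2 * a ∧ 2 ∣ δ - j
    · rw [if_pos h]; exact zero_mem _
    · rw [if_neg h]; exact zero_mem _)
  intro m
  have := key (δ - 2 * m) (a - (δ - 2 * m))
  unfold emb at this
  rw [if_pos (by constructor <;> omega), show (δ - (δ - 2 * m)) / 2 = m by omega,
    show δ - 2 * m - 1 = δ - 1 - 2 * m by ring] at this
  exact this

/-- Injectivity on finite sequences. -/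
theorem seq_inj [IsAlgClosed Ω] [FiniteDimensional Ω V] (a : ℕ) {x : ℤ → V}
    (hx0 : ∀ m < 0, x m = 0) {K : ℤ} (hxK : ∀ m, K < m → x m = 0)
    (hxw : ∀ m, x m ∈ WS q Φ (n + a)) (hT : (TT N₁ N₂ ^ a) x = 0) : x = 0 := by
  obtain ⟨s, hs⟩ := H.mon.bot
  obtain ⟨t, ht⟩ := H.mon.top
  have h0 : ∀ m, x m ∈ M (|t| + 2 * |K| - 2 * m) := by
    intro m
    by_cases hm : K < m
    · rw [hxK m hm]; exact zero_mem _
    · have h1 := le_abs_self K
      have h2 := le_abs_self t
      have h3 : M t ≤ M (|t| + 2 * |K| - 2 * m) := H.mon.mono (by omega)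
      apply h3
      rw [ht]
      trivial
  have h1 : ∀ (k : ℕ) m, x m ∈ M (|t| + 2 * |K| - k - 2 * m) := by
    intro k
    induction k with
    | zero => intro m; simpa using h0 m
    | succ k ih =>
      intro m
      have := H.seq_step a (|t| + 2 * |K| - k) hx0 ih hxw hT m
      rwa [show |t| + 2 * |K| - (k : ℤ) - 1 - 2 * m = |t| + 2 * |K| - ((k + 1 : ℕ) : ℤ) - 2 * m by
        push_cast; ring] at this
  funext m
  by_cases hm : m < 0
  · rw [hx0 m hm]; rfl
  · have h2 := h1 (|t| + 2 * |K| + |s|).toNat m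
    have h3 := abs_nonneg t
    have h4 := abs_nonneg K
    have h5 := abs_nonneg s
    have h6 := neg_abs_le s
    rw [Int.toNat_of_nonneg (by omega)] at h2
    have h7 := H.mon.mono (show _ ≤ s by omega) h2
    rwa [hs, Submodule.mem_bot] at h7

end Hyp

end Run7.h307.WM
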