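import Pool.Agent.Run7.h307.WM.Geo
import Pool.Agent.Run7.h307.WM.Fin

/-!
# Purity of the `E_1` and `E_2` terms
-/

set_option autoImplicit false

namespace Run7.h307.WM

open Module Pool.Agent.Y143 Pool.Agent.N184.HP Pool.Agent.N184.HK

section Gen

variable {Ω E : Type} [Field Ω] [AddCommGroup E] [Module Ω E]

lemma gen_smul {Φ : Module.End Ω E} {α : Ω} (c : Ω) {x : E} (hx : x ∈ Φ.maxGenEigenspace α) :
    x ∈ (c • Φ).maxGenEigenspace (c * α) := by
  rw [Module.End.mem_maxGenEigenspace] at hx ⊢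
  obtain ⟨k, hk⟩ := hx
  refine ⟨k, ?_⟩
  have : c • Φ - (c * α) • (1 : Module.End Ω E) = c • (Φ - α • 1) := by
    rw [smul_sub, smul_smul]
  rw [this, smul_pow, LinearMap.smul_apply, hk, smul_zero]

/-- An eigenvalue on a quotient is an eigenvalue. -/
lemma exists_eigen' {S : Module.End Ω E} {α : Ω} {Z B : Submodule Ω E} (hfin : Module.Finite Ω B)
    (hBZ : B ≤ Z) (hB : ∀ x ∈ B, S x ∈ B)
    {x : E} (hx : x ∈ Z) (hxB : x ∉ B) (h : S x - α • x ∈ B) :
    ∃ y ∈ Z, y ≠ 0 ∧ S y = α • y := by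
  by_contra hcon
  push Not at hcon
  have hinj : ∀ y ∈ B, (S - α • (1 : Module.End Ω E)) y = 0 → y = 0 := by
    intro y hy h0
    by_contra hne
    apply hcon y (hBZ hy) hne
    simpa [sub_eq_zero] using h0
  have hmaps : ∀ y ∈ B, (S - α • (1 : Module.End Ω E)) y ∈ B := by
    intro y hy
    simp only [LinearMap.sub_apply, LinearMap.smul_apply, Module.End.one_apply]
    exact B.sub_mem (hB y hy) (B.smul_mem _ hy)
  let R := (S - α • (1 : Module.End Ω E)).restrict hmaps
  have hRinj : Function.Injective R := by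
    rw [← LinearMap.ker_eq_bot, LinearMap.ker_eq_bot']
    intro y hy
    exact Subtype.ext (hinj y y.2 (congrArg Subtype.val hy))
  obtain ⟨⟨y, hy⟩, hyx⟩ := (LinearMap.injective_iff_surjective.1 hRinj) ⟨_, h⟩
  have hyx' : (S - α • (1 : Module.End Ω E)) y = S x - α • x := congrArg Subtype.val hyx
  have hne : x - y ≠ 0 := by
    intro h0
    rw [sub_eq_zero] at h0
    rw [h0] at hxB
    exact hxB hy
  apply hcon (x - y) (Z.sub_mem hx (hBZ hy)) hne
  simp only [LinearMap.sub_apply, LinearMap.smul_apply, Module.End.one_apply] at hyx'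
  have e : S x = S y - α • y + α • x := by rw [hyx']; abel
  rw [map_sub, smul_sub, e]
  abel

end Gen

section

variable {Ω E : Type} [Field Ω] [CharZero Ω] [AddCommGroup E] [Module Ω E] {q : ℕ}

lemma WS_twist (hq : 1 < q) {Φ : Module.End Ω E} (s : ℤ) {v : ℤ} {x : E} (hx : x ∈ WS q Φ v) :
    x ∈ WS q ((q : Ω) ^ s • Φ) (v + 2 * s) := by
  have h : WS q Φ v ≤ WS q ((q : Ω) ^ s • Φ) (v + 2 * s) := by
    rw [P_TOM.WS_eq, P_TOM.WS_eq]
    apply eig_le
    intro α hα x hx
    refine le_eig (S := P_TOM.Eq Ω q (v + 2 * s)) ?_ (gen_smul _ hx)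
    exact IsWeilNumber.twist (by omega) hα s
  exact h hx

lemma WS_untwist (hq : 1 < q) {Φ : Module.End Ω E} (s : ℤ) {v : ℤ} {x : E}
    (hx : x ∈ WS q ((q : Ω) ^ s • Φ) (v + 2 * s)) : x ∈ WS q Φ v := by
  have h := WS_twist hq (-s) hx
  have hq0 : (q : Ω) ≠ 0 := Nat.cast_ne_zero.2 (by omega)
  rwa [smul_smul, ← zpow_add₀ hq0, neg_add_cancel, zpow_zero, one_smul,
    show v + 2 * s + 2 * -s = v by ring] at h

/-- The eigenvalues of a mw pure space are Weil numbers. -/
lemma weil_of_pure {i : ℤ} {Φ N : Module.End Ω E} (h : IsMWPure q i Φ N) {β : Ω} {y : E}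
    (hy : y ≠ 0) (hyβ : Φ y = β • y) : ∃ w : ℤ, IsWeilNumber q w β := by
  obtain ⟨M, hM, -, hp⟩ := h
  obtain ⟨s, hs⟩ := hM.bot
  obtain ⟨t, ht⟩ := hM.top
  have h1 : ¬ y ∈ M s := by
    rw [hs, Submodule.mem_bot]
    exact hy
  have hst : s ≤ t := by
    by_contra hc
    apply h1
    apply hM.mono (show t ≤ s by omega)
    rw [ht]
    trivial
  obtain ⟨c, -, -, h2, h3⟩ := P_FRM.step (fun a => y ∈ M a) h1 hst (by rw [ht]; trivial)
  exact ⟨c + i, hp c β y h2 h3 (by rw [hyβ, sub_self]; exact zero_mem _)⟩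

lemma bij_of_pure [IsAlgClosed Ω] [FiniteDimensional Ω E] (hq : 1 < q) {i : ℤ}
    {Φ N : Module.End Ω E} (h : IsMWPure q i Φ N) (hN : ∀ x, N (Φ x) = (q : Ω) • Φ (N x)) (j : ℕ) :
    Set.BijOn (⇑(N ^ j)) (WS q Φ (i + j) : Set E) (WS q Φ (i - j) : Set E) := by
  refine t_frm Ω E q hq i Φ N (fun e he => ?_) hN h j
  have h1 : Φ.HasEigenvalue e := by
    rw [Module.End.hasEigenvalue_iff_isRoot_charpoly]
    exact Polynomial.isRoot_of_mem_roots he
  obtain ⟨y, hy⟩ := h1.exists_hasEigenvector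
  exact weil_of_pure h hy.2 hy.apply_eq_smul

/-- The stable subspace `Z` is mw pure of weight `w`, with eigenvalues which are Weil numbers. -/
structure Good (q : ℕ) (w : ℤ) (Φ N : Module.End Ω E) (Z : Submodule Ω E) : Prop where
  pure : PureOn q w Φ N Z ⊥
  weil : ∀ (β : Ω) (y : E), y ∈ Z → y ≠ 0 → Φ y = β • y → ∃ w : ℤ, IsWeilNumber q w β

end

lemma pow_inter {Ω E F : Type} [Field Ω] [AddCommGroup E] [Module Ω E] [AddCommGroup F]
    [Module Ω F] {N : Module.End Ω E} {N' : Module.End Ω F} {f : E →ₗ[Ω] F} {Z : Submodule Ω E}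
    (hZ : ∀ x ∈ Z, N x ∈ Z) (h : ∀ x ∈ Z, f (N x) = N' (f x)) (j : ℕ) :
    ∀ x ∈ Z, f ((N ^ j) x) = (N' ^ j) (f x) := by
  induction j with
  | zero => intro x _; simp
  | succ j ih =>
    intro x hx
    rw [pow_succ, Module.End.mul_apply, ih _ (hZ x hx), h x hx, pow_succ, Module.End.mul_apply]

namespace StrataData

variable {Ω : Type} [Field Ω] [CharZero Ω] [IsAlgClosed Ω] (Y : StrataData Ω) {q : ℕ}

lemma IsPure.good {Y : StrataData Ω} (hq : 1 < q) {a : ℕ} {m : ℤ}
    (hfin : Module.Finite Ω (Y.gr a m)) (h : Y.IsPure q a m)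
    (hN : ∀ x, Y.mon a (Y.frob a x) = (q : Ω) • Y.frob a (Y.mon a x)) :
    Good q m (Y.frob a) (Y.mon a) (Y.gr a m) := by
  obtain ⟨hΦ, hM, hp⟩ := h
  have hb := bij_of_pure hq hp (fun x => Subtype.ext (hN x))
  have hsub : ∀ x, (Y.gr a m).subtype (((Y.frob a).restrict hΦ) x) =
      Y.frob a ((Y.gr a m).subtype x) := fun x => rfl
  have hpow : ∀ (j : ℕ) (x : Y.gr a m), (((((Y.mon a).restrict hM) ^ j) x : Y.gr a m) : Y.H a) =
      ((Y.mon a) ^ j) x := by
    intro j
    induction j with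
    | zero => intro x; simp
    | succ j ih =>
      intro x
      rw [pow_succ, Module.End.mul_apply, ih, pow_succ, Module.End.mul_apply]
      rfl
  refine ⟨⟨?_, ?_⟩, ?_⟩
  · intro j x hx hxw h0
    rw [Submodule.mem_bot] at h0 ⊢
    have h1 := eig_restrict hfin hΦ (P_TOM.Eq Ω q (m + j)) hx hxw
    have h2 : (((Y.mon a).restrict hM) ^ j) ⟨x, hx⟩ = 0 := Subtype.ext (by rw [hpow]; exact h0)
    have h3 := (hb j).injOn h1 (zero_mem _) (by rw [h2, map_zero])
    exact congrArg Subtype.val h3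
  · intro j y hy hyw
    have h1 := eig_restrict hfin hΦ (P_TOM.Eq Ω q (m - j)) hy hyw
    obtain ⟨x, hx, hxy⟩ := (hb j).surjOn h1
    refine ⟨x, x.2, eig_map hsub hx, ?_⟩
    rw [Submodule.mem_bot, ← hpow, hxy, sub_self]
  · intro β y hy hy0 hyβ
    exact weil_of_pure (y := ⟨y, hy⟩) hp (fun h => hy0 (congrArg Subtype.val h))
      (Subtype.ext hyβ)

lemma IsFactor.good {Y : StrataData Ω} (hq : 1 < q) {a : ℕ} {m : ℤ}
    (hfin : Module.Finite Ω (Y.gr a m)) (h : Y.IsFactor q a m)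
    (hΦgr : ∀ x ∈ Y.gr a m, Y.frob a x ∈ Y.gr a m) (hMgr : ∀ x ∈ Y.gr a m, Y.mon a x ∈ Y.gr a m) :
    Good q m (Y.frob a) (Y.mon a) (Y.gr a m) := by
  obtain ⟨s, E, _, _, _, Φ, N, j, p, hp, hN, ⟨hj, hjp⟩, ⟨hjΦ, hpΦ⟩, ⟨hjN', hpN'⟩⟩ := h
  have hjN : ∀ x, Y.mon a (j x) = j (N x) := fun x => by rw [hjN', one_smul]
  have hpN : ∀ x ∈ Y.gr a m, p (Y.mon a x) = N (p x) := fun x hx => by rw [hpN' x hx, one_smul]
  have hb := bij_of_pure hq hp hN
  -- the twisted Frobenius
  have hjΦ' : ∀ x, j (((q : Ω) ^ (s : ℤ) • Φ) x) = Y.frob a (j x) := by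
    intro x
    rw [hjΦ, LinearMap.smul_apply, map_smul, zpow_natCast]
  -- `p` on the subspace `gr`
  let T : Module.End Ω (Y.gr a m) := (Y.frob a).restrict hΦgr
  let p' : Y.gr a m →ₗ[Ω] E := p ∘ₗ (Y.gr a m).subtype
  have hpΦ' : ∀ x, p' (T x) = ((q : Ω) ^ (s : ℤ) • Φ) (p' x) := by
    intro x
    change p (Y.frob a x) = _
    rw [hpΦ x x.2, LinearMap.smul_apply, zpow_natCast]
    rfl
  have hpw : ∀ (u : ℤ) x, x ∈ Y.gr a m → x ∈ WS q (Y.frob a) (u + 2 * s) → p x ∈ WS q Φ u := by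
    intro u x hx hxu
    have h1 := eig_restrict hfin hΦgr (P_TOM.Eq Ω q (u + 2 * s)) hx hxu
    exact WS_untwist hq s (eig_map hpΦ' h1)
  have hjw : ∀ (u : ℤ) x, x ∈ WS q Φ u → j x ∈ WS q (Y.frob a) (u + 2 * s) := by
    intro u x hx
    exact WS_map hjΦ' (WS_twist hq s hx)
  have hppow := pow_inter (f := p) hMgr hpN
  have hjpow := pow_inter (N := N) (N' := Y.mon a) (f := j) (Z := ⊤) (fun _ _ => trivial)
    (fun x _ => (hjN x).symm)
  refine ⟨⟨?_, ?_⟩, ?_⟩
  · intro k x hx hxw h0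
    rw [Submodule.mem_bot] at h0 ⊢
    have h1 : p x ∈ WS q Φ (m - 2 * s + k) := by
      apply hpw _ x hx
      rwa [show m - 2 * (s : ℤ) + k + 2 * s = m + k by ring]
    have h2 : (N ^ k) (p x) = 0 := by rw [← hppow k x hx, h0, map_zero]
    have h3 := (hb k).injOn h1 (zero_mem _) (by rw [h2, map_zero])
    rw [← hjp x hx, h3, map_zero]
  · intro k y hy hyw
    have h1 : p y ∈ WS q Φ (m - 2 * s - k) := by
      apply hpw _ y hy
      rwa [show m - 2 * (s : ℤ) - k + 2 * s = m - k by ring]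
    obtain ⟨x, hx, hxy⟩ := (hb k).surjOn h1
    refine ⟨j x, hj x, ?_, ?_⟩
    · have := hjw _ x hx
      rwa [show m - 2 * (s : ℤ) + k + 2 * s = m + k by ring] at this
    · rw [Submodule.mem_bot, ← hjpow k x trivial, hxy, hjp y hy, sub_self]
  · intro β y hy hy0 hyβ
    have hq0 : (q : Ω) ≠ 0 := Nat.cast_ne_zero.2 (by omega)
    have h1 : p y ≠ 0 := by
      intro h
      apply hy0
      rw [← hjp y hy, h, map_zero]
    have h2 : Φ (p y) = (((q : Ω) ^ s)⁻¹ * β) • p y := by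
      have h3 := hpΦ y hy
      rw [hyβ, map_smul] at h3
      rw [mul_smul, h3, smul_smul, inv_mul_cancel₀ (pow_ne_zero s hq0), one_smul]
    obtain ⟨w, hw⟩ := weil_of_pure hp h1 h2
    refine ⟨w + 2 * s, ?_⟩
    have h4 := hw.twist (by omega : q ≠ 0) s
    rwa [zpow_natCast, ← mul_assoc, mul_inv_cancel₀ (pow_ne_zero s hq0), one_mul] at h4

end StrataData

namespace DegenerateFibre

variable {Ω : Type} [Field Ω] [CharZero Ω] {n q : ℕ} (X : DegenerateFibre Ω n q)

lemma frob_gr (a : ℕ) (m : ℤ) (x : X.H a) (hx : x ∈ X.gr a m) : X.frob a x ∈ X.gr a m :=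
  (X.galois a).frob_gr m x hx

lemma mon_gr (a : ℕ) (m : ℤ) (x : X.H a) (hx : x ∈ X.gr a m) : X.mon a x ∈ X.gr a m :=
  (X.galois a).mon_gr m x hx

lemma mon_frob (a : ℕ) (x : X.H a) : X.mon a (X.frob a x) = (q : Ω) • X.frob a (X.mon a x) :=
  (X.galois a).mon_frob x

lemma res_gr (a : ℕ) (m : ℤ) (x : X.H a) (hx : x ∈ X.gr a m) : X.res a x ∈ X.gr (a + 1) m := by
  have := (X.restriction.res a).map_gr m x hx
  rwa [add_zero] at this

lemma res_frob (a : ℕ) (x : X.H a) : X.res a (X.frob a x) = X.frob (a + 1) (X.res a x) := by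
  have := (X.restriction.res a).map_frob x
  rw [one_smul] at this
  exact this.symm

lemma res_mon (a : ℕ) (x : X.H a) : X.res a (X.mon a x) = X.mon (a + 1) (X.res a x) :=
  ((X.restriction.res a).map_mon x).symm

lemma gys_gr (a : ℕ) (m : ℤ) (x : X.H (a + 1)) (hx : x ∈ X.gr (a + 1) m) :
    X.gys a x ∈ X.gr a (m + 2) :=
  (X.gysin.gys a).map_gr m x hx

lemma gys_frob (a : ℕ) (x : X.H (a + 1)) :
    X.frob a (X.gys a x) = (q : Ω) • X.gys a (X.frob (a + 1) x) :=
  (X.gysin.gys a).map_frob x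

lemma gys_mon (a : ℕ) (x : X.H (a + 1)) : X.mon a (X.gys a x) = X.gys a (X.mon (a + 1) x) :=
  (X.gysin.gys a).map_mon x

lemma gr_bot {a : ℕ} {m : ℤ} (h : m < 0 ∨ 2 * ((n : ℤ) - a) < m) : X.gr a m = ⊥ :=
  (X.graded a).gr_eq_bot m h

lemma fin_gr (a : ℕ) (m : ℤ) : Module.Finite Ω (X.gr a m) := by
  have := (X.graded a).finite
  infer_instance

/-- components vanish for large index -/
lemma comp_zero {r w : ℤ} {x : X.C} (hx : x ∈ X.E₁ r w) {a : ℕ} (ha : n < a) : x a = 0 := by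
  have h1 := (hx a).1
  rw [X.gr_bot (by omega), Submodule.mem_bot] at h1
  exact h1

lemma fin_E₁ (r w : ℤ) : Module.Finite Ω (X.E₁ r w) := by
  have h : ∀ a, Module.Finite Ω (X.H a) := fun a => (X.graded a).finite
  let g : X.E₁ r w →ₗ[Ω] (∀ a : Fin (n + 1), X.H a) :=
    { toFun := fun x a => x.1 a
      map_add' := fun x y => rfl
      map_smul' := fun c x => rfl }
  apply Module.Finite.of_injective g
  rw [← LinearMap.ker_eq_bot, LinearMap.ker_eq_bot']
  rintro ⟨x, hx⟩ h0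
  apply Subtype.ext
  funext a
  by_cases ha : a ≤ n
  · exact congrFun h0 ⟨a, by omega⟩
  · exact X.comp_zero hx (by omega)

lemma monC_pow (j : ℕ) (x : X.C) (a : ℕ) : ((X.monC ^ j : Module.End Ω X.C) x) a =
    ((X.mon a) ^ j) (x a) := by
  induction j generalizing x with
  | zero => simp
  | succ j ih =>
    rw [pow_succ, Module.End.mul_apply, ih, pow_succ, Module.End.mul_apply]
    rfl

lemma frobC_E₁ {r w : ℤ} {x : X.C} (hx : x ∈ X.E₁ r w) : X.frobC q r x ∈ X.E₁ r w := fun a =>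
  ⟨Submodule.smul_mem _ _ (X.frob_gr a _ _ (hx a).1), fun h => by
    change ((q : Ω) ^ (((a : ℤ) - r) / 2)) • X.frob a (x a) = 0
    rw [(hx a).2 h, map_zero, smul_zero]⟩

lemma diff_E₁ {r w : ℤ} {x : X.C} (hx : x ∈ X.E₁ r w) : X.diff r x ∈ X.E₁ (r + 1) w := by
  classical
  intro a
  by_cases hc : InColumn (r + 1) a
  · refine ⟨?_, fun h => absurd hc h⟩
    have e : X.diff r x a = X.resC x a + X.gysC x a := if_pos hc
    rw [e]
    refine Submodule.add_mem _ ?_ ?_
    · cases a with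
      | zero => exact zero_mem _
      | succ b =>
        change X.res b (x b) ∈ _
        have := X.res_gr b _ _ (hx b).1
        rwa [show w + r - (b : ℤ) = w + (r + 1) - ((b + 1 : ℕ) : ℤ) by push_cast; ring] at this
    · change X.gys a (x (a + 1)) ∈ _
      have := X.gys_gr a _ _ (hx (a + 1)).1
      rwa [show w + r - ((a + 1 : ℕ) : ℤ) + 2 = w + (r + 1) - (a : ℤ) by push_cast; ring] at this
  · have e : X.diff r x a = 0 := if_neg hc
    rw [e]
    exact ⟨zero_mem _, fun _ => rfl⟩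

lemma diff_frobC (hq : 1 < q) (r : ℤ) (x : X.C) :
    X.diff r (X.frobC q r x) = X.frobC q (r + 1) (X.diff r x) := by
  classical
  have hq0 : (q : Ω) ≠ 0 := Nat.cast_ne_zero.2 (by omega)
  funext a
  by_cases hc : InColumn (r + 1) a
  · have e : ∀ y, X.diff r y a = X.resC y a + X.gysC y a := fun y => if_pos hc
    have e2 : X.frobC q (r + 1) (X.diff r x) a =
        ((q : Ω) ^ (((a : ℤ) - (r + 1)) / 2)) • X.frob a (X.diff r x a) := rfl
    rw [e2, e, e, map_add, smul_add]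
    congr 1
    · cases a with
      | zero =>
        change (0 : X.H 0) = _ • X.frob 0 0
        rw [map_zero, smul_zero]
      | succ b =>
        change X.res b (((q : Ω) ^ (((b : ℤ) - r) / 2)) • X.frob b (x b)) = _ • X.frob (b + 1) (X.res b (x b))
        rw [map_smul, X.res_frob]
        rw [show (((b + 1 : ℕ) : ℤ) - (r + 1)) / 2 = ((b : ℤ) - r) / 2 by
          congr 1; push_cast; ring]
    · change X.gys a (((q : Ω) ^ ((((a + 1 : ℕ) : ℤ) - r) / 2)) • X.frob (a + 1) (x (a + 1))) =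
        _ • X.frob a (X.gys a (x (a + 1)))
      rw [map_smul, X.gys_frob, smul_smul, ← zpow_add_one₀ hq0]
      rw [show (((a + 1 : ℕ) : ℤ) - r) / 2 = ((a : ℤ) - (r + 1)) / 2 + 1 by push_cast; omega]
  · have e : ∀ y, X.diff r y a = 0 := fun y => if_neg hc
    have e2 : X.frobC q (r + 1) (X.diff r x) a =
        ((q : Ω) ^ (((a : ℤ) - (r + 1)) / 2)) • X.frob a (X.diff r x a) := rfl
    rw [e2, e, e, map_zero, smul_zero]

lemma diff_monC (r : ℤ) (x : X.C) : X.diff r (X.monC x) = X.monC (X.diff r x) := by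
  classical
  funext a
  by_cases hc : InColumn (r + 1) a
  · have e : ∀ y, X.diff r y a = X.resC y a + X.gysC y a := fun y => if_pos hc
    have e2 : X.monC (X.diff r x) a = X.mon a (X.diff r x a) := rfl
    rw [e2, e, e, map_add]
    congr 1
    · cases a with
      | zero =>
        change (0 : X.H 0) = X.mon 0 0
        rw [map_zero]
      | succ b => exact X.res_mon b (x b)
    · exact (X.gys_mon a (x (a + 1))).symm
  · have e : ∀ y, X.diff r y a = 0 := fun y => if_neg hc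
    have e2 : X.monC (X.diff r x) a = X.mon a (X.diff r x a) := rfl
    rw [e2, e, e, map_zero]

lemma monC_frobC (r : ℤ) (x : X.C) :
    X.monC (X.frobC q r x) = (q : Ω) • X.frobC q r (X.monC x) := by
  funext a
  change X.mon a (((q : Ω) ^ (((a : ℤ) - r) / 2)) • X.frob a (x a)) =
    (q : Ω) • ((q : Ω) ^ (((a : ℤ) - r) / 2)) • X.frob a (X.mon a (x a))
  rw [map_smul, X.mon_frob, smul_comm]

variable [IsAlgClosed Ω]

variable {X}

lemma good (hq : 1 < q) (h : X.StrataPure) (a : ℕ) (m : ℤ) :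
    Good q m (X.frob a) (X.mon a) (X.gr a m) := by
  by_cases h1 : m ≤ 2 ∨ 2 * ((n : ℤ) - a) - 2 ≤ m
  · exact (X.known a m h1).good hq (X.fin_gr a m) (X.mon_frob a)
  · rcases h a m (by omega) (by omega) with h2 | h2
    · exact h2.good hq (X.fin_gr a m) (X.mon_frob a)
    · exact h2.good hq (X.fin_gr a m) (X.frob_gr a m) (X.mon_gr a m)

/-- The term `E_1^(r, w)` is mw pure of weight `w`. -/
lemma pure_E₁ (hq : 1 < q) (h : X.StrataPure) (r w : ℤ) :
    PureOn q w (X.frobC q r) X.monC (X.E₁ r w) ⊥ := by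
  classical
  have hproj : ∀ (a : ℕ) x, (LinearMap.proj a : X.C →ₗ[Ω] X.H a) (X.frobC q r x) =
      (((q : Ω) ^ (((a : ℤ) - r) / 2)) • X.frob a) ((LinearMap.proj a : X.C →ₗ[Ω] X.H a) x) :=
    fun a x => rfl
  have hcomp : ∀ (a : ℕ) (u : ℤ) (x : X.C), x ∈ WS q (X.frobC q r) u →
      x a ∈ WS q (X.frob a) (u - 2 * (((a : ℤ) - r) / 2)) := by
    intro a u x hx
    apply WS_untwist hq (((a : ℤ) - r) / 2)
    rw [sub_add_cancel]
    exact WS_map (hproj a) hx
  constructor
  · intro j x hx hxw h0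
    rw [Submodule.mem_bot] at h0 ⊢
    funext a
    by_cases hc : InColumn r a
    · have h1 := hcomp a _ x hxw
      have h2 : (X.mon a ^ j) (x a) = 0 := by
        rw [← X.monC_pow, h0]
        rfl
      have h3 := (good hq h a _).pure.inj j (x a) (hx a).1 (by
        have := hc.2
        rwa [show w + r - (a : ℤ) + j = w + j - 2 * (((a : ℤ) - r) / 2) by omega]) (by
        rw [h2]; exact zero_mem _)
      rw [Submodule.mem_bot] at h3
      exact h3
    · exact (hx a).2 hc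
  · intro j y hy hyw
    have key : ∀ a : ℕ, ∃ x : X.H a, x ∈ X.gr a (w + r - a) ∧ (¬ InColumn r a → x = 0) ∧
        x ∈ WS q (X.frob a) (w + j - 2 * (((a : ℤ) - r) / 2)) ∧ (X.mon a ^ j) x = y a := by
      intro a
      by_cases hc : InColumn r a
      · have h1 := hcomp a _ y hyw
        obtain ⟨x, hx, hxw, hxy⟩ := (good hq h a _).pure.surj j (y a) (hy a).1 (by
          have := hc.2
          rwa [show w + r - (a : ℤ) - j = w - j - 2 * (((a : ℤ) - r) / 2) by omega])
        refine ⟨x, hx, fun h => absurd hc h, ?_, ?_⟩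
        · have := hc.2
          rwa [show w + j - 2 * (((a : ℤ) - r) / 2) = w + r - (a : ℤ) + j by omega]
        · rw [Submodule.mem_bot, sub_eq_zero] at hxy
          exact hxy.symm
      · exact ⟨0, zero_mem _, fun _ => rfl, zero_mem _, by rw [map_zero, (hy a).2 hc]⟩
    choose x hx hx0 hxw hxy using key
    have hxE : (x : X.C) ∈ X.E₁ r w := fun a => ⟨hx a, hx0 a⟩
    refine ⟨x, hxE, ?_, ?_⟩
    · have e : (x : X.C) = ∑ a ∈ Finset.range (n + 1), LinearMap.single Ω X.H a (x a) := by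
        funext b
        rw [Finset.sum_apply]
        simp only [LinearMap.single_apply]
        rw [Finset.sum_eq_single b]
        · rw [Pi.single_eq_same]
        · intro a _ hab
          rw [Pi.single_eq_of_ne (Ne.symm hab)]
        · intro hb
          rw [Pi.single_eq_same]
          exact X.comp_zero hxE (by simpa using hb)
      rw [e]
      refine Submodule.sum_mem _ fun a _ => ?_
      have hs : ∀ z, LinearMap.single Ω X.H a
          ((((q : Ω) ^ (((a : ℤ) - r) / 2)) • X.frob a) z) =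
            X.frobC q r (LinearMap.single Ω X.H a z) := by
        intro z
        funext b
        change Pi.single a _ b = ((q : Ω) ^ (((b : ℤ) - r) / 2)) • X.frob b (Pi.single a z b)
        by_cases hb : b = a
        · subst hb
          rw [Pi.single_eq_same, Pi.single_eq_same]
          rfl
        · rw [Pi.single_eq_of_ne hb, Pi.single_eq_of_ne hb, map_zero, smul_zero]
      have := WS_map hs (WS_twist hq (((a : ℤ) - r) / 2) (hxw a))
      rwa [sub_add_cancel] at this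
    · rw [Submodule.mem_bot, sub_eq_zero]
      funext a
      rw [X.monC_pow]
      exact (hxy a).symm

/-- The eigenvalues of the Frobenius on `E_1^(r, w)` are Weil numbers. -/
lemma weil_E₁ (hq : 1 < q) (h : X.StrataPure) {r w : ℤ} {β : Ω} {x : X.C} (hx : x ∈ X.E₁ r w)
    (hx0 : x ≠ 0) (hxβ : X.frobC q r x = β • x) : ∃ w : ℤ, IsWeilNumber q w β := by
  have hq0 : (q : Ω) ≠ 0 := Nat.cast_ne_zero.2 (by omega)
  obtain ⟨b, hb⟩ : ∃ b, x b ≠ 0 := by
    by_contra hcon
    push Not at hcon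
    exact hx0 (funext hcon)
  have h1 : ((q : Ω) ^ (((b : ℤ) - r) / 2)) • X.frob b (x b) = β • x b := congrFun hxβ b
  generalize ((b : ℤ) - r) / 2 = s at h1
  have h2 : X.frob b (x b) = (((q : Ω) ^ s)⁻¹ * β) • x b := by
    rw [mul_smul, ← h1, smul_smul, inv_mul_cancel₀ (zpow_ne_zero s hq0), one_smul]
  obtain ⟨u, hu⟩ := (good hq h b _).weil _ _ (hx b).1 hb h2
  refine ⟨u + 2 * s, ?_⟩
  have h4 := hu.twist (by omega : q ≠ 0) s
  rwa [← mul_assoc, mul_inv_cancel₀ (zpow_ne_zero s hq0), one_mul] at h4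

/-- The term `E_2^(r, w)` is mw pure of weight `w`. -/
lemma pure_E₂ (hq : 1 < q) (h : X.StrataPure) (r w : ℤ) :
    PureOn q w (X.frobC q r) X.monC (X.cocycles r w) (X.coboundaries r w) := by
  obtain ⟨r', rfl⟩ : ∃ r', r = r' + 1 := ⟨r - 1, by ring⟩
  have e : r' + 1 - 1 = r' := by ring
  have := PureOn.homology hq (pure_E₁ hq h r' w) (pure_E₁ hq h (r' + 1) w)
    (pure_E₁ hq h (r' + 1 + 1) w) (X.fin_E₁ r' w) (fun x hx => X.frobC_E₁ hx)
    (d₁ := X.diff r') (d₂ := X.diff (r' + 1))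
    (fun x hx => X.diff_E₁ hx) (fun x hx => X.diff_E₁ hx) (X.diff_frobC hq r')
    (X.diff_frobC hq (r' + 1)) (X.diff_monC r') (X.diff_monC (r' + 1)) (X.monC_frobC (r' + 1))
  unfold StrataData.cocycles StrataData.coboundaries
  rw [e]
  exact this

end DegenerateFibre

namespace Degeneration

variable {Ω : Type} [Field Ω] [CharZero Ω] [IsAlgClosed Ω] {n q : ℕ} {X : Degeneration Ω n q}

omit [IsAlgClosed Ω] in
lemma cobd_le (r w : ℤ) : X.coboundaries r w ≤ X.E₁ r w := by
  rintro _ ⟨x, hx, rfl⟩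
  have := X.diff_E₁ hx
  rwa [sub_add_cancel] at this

omit [IsAlgClosed Ω] in
lemma fin_sp (i : ℕ) (w : ℤ) : Module.Finite Ω (X.limit.sp i w) := by
  have := (X.limitSpace i).finite
  have := X.fin_E₁ (i - w) w
  let g : X.limit.sp i w →ₗ[Ω] (X.limit.V i × X.E₁ (i - w) w) :=
    { toFun := fun p => (p.1.1, ⟨p.1.2, (((X.weightSequence.graded i).sp_mem w p.1.1 p.1.2 p.2).2).1⟩)
      map_add' := fun p p' => rfl
      map_smul' := fun c p => rfl }
  apply Module.Finite.of_injective g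
  rw [← LinearMap.ker_eq_bot, LinearMap.ker_eq_bot']
  rintro ⟨⟨v, x⟩, h⟩ h0
  apply Subtype.ext
  have e1 : v = 0 := congrArg (fun p : X.limit.V i × X.E₁ (i - w) w => p.1) h0
  have e2 : x = 0 := congrArg (fun p : X.limit.V i × X.E₁ (i - w) w => (p.2 : X.C)) h0
  exact Prod.ext e1 e2

/-- The hypotheses on the operators on the limit cohomology. -/
lemma hyp (hq : 1 < q) (h : X.StrataPure) (i : ℕ) :
    Hyp q i (X.limit.frob i) (X.limit.N i) (X.limit.mon i) (fun j => X.limit.W i (i + j)) where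
  hq := hq
  mon := X.monodromy i
  stab := by
    intro a v hv
    obtain ⟨x, hx⟩ := (X.weightSequence.graded i).sp_left _ v hv
    exact ((X.weightSequence.graded i).sp_mem _ _ _ (X.weightSequence.sp_frob i _ v x hx)).1
  stab2 := by
    intro a v hv
    obtain ⟨x, hx⟩ := (X.weightSequence.graded i).sp_left _ v hv
    exact ((X.weightSequence.graded i).sp_mem _ _ _ (X.weightSequence.sp_mon i _ v x hx)).1
  comm := (X.limitSpace i).N_mon
  t1 := (X.limitSpace i).N_frob
  t2 := (X.limitSpace i).mon_frob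
  pure := by
    intro j
    have h1 := DegenerateFibre.pure_E₂ hq h ((i : ℤ) - (i + j)) (i + j)
    refine h1.graph (S := X.limit.sp i (i + j)) (fin_sp i _)
      ((X.weightSequence.graded i).sp_mem _) ((X.weightSequence.graded i).sp_left _)
      ((X.weightSequence.graded i).sp_right _) ?_ (X.weightSequence.sp_frob i _) (X.weightSequence.sp_mon i _)
    intro v x hvx
    rw [show (i : ℤ) + (j - 1) = i + j - 1 by ring]
    exact (X.weightSequence.graded i).sp_ker _ v x hvx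

lemma roots (hq : 1 < q) (h : X.StrataPure) (i : ℕ) :
    have := (X.limitSpace i).finite
    ∀ e ∈ (X.limit.frob i).charpoly.roots, ∃ w : ℤ, IsWeilNumber q w e := by
  have := (X.limitSpace i).finite
  intro _ e he
  have h1 : (X.limit.frob i).HasEigenvalue e := by
    rw [Module.End.hasEigenvalue_iff_isRoot_charpoly]
    exact Polynomial.isRoot_of_mem_roots he
  obtain ⟨v, hv⟩ := h1.exists_hasEigenvector
  have hG := X.weightSequence.graded i
  obtain ⟨s, hs⟩ := hG.W_bot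
  obtain ⟨t, ht⟩ := hG.W_top
  have h2 : ¬ v ∈ X.limit.W i s := by
    rw [hs, Submodule.mem_bot]
    exact hv.2
  have hst : s ≤ t := by
    by_contra hc
    apply h2
    apply hG.W_mono (show t ≤ s by omega)
    rw [ht]
    trivial
  obtain ⟨w, -, -, h3, h4⟩ := P_FRM.step (fun a => v ∈ X.limit.W i a) h2 hst (by rw [ht]; trivial)
  obtain ⟨x, hx⟩ := hG.sp_left w v h3
  have h5 : x ∉ X.coboundaries (i - w) w := fun hc => h4 ((hG.sp_ker w v x hx).2 hc)
  have h6 : X.frobC q (i - w) x - e • x ∈ X.coboundaries (i - w) w := by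
    have h7 : (X.limit.frob i v - e • v, X.frobC q (i - w) x - e • x) ∈ X.limit.sp i w :=
      Submodule.sub_mem _ (X.weightSequence.sp_frob i w v x hx) (Submodule.smul_mem _ e hx)
    have h8 : X.limit.frob i v - e • v = 0 := by rw [hv.apply_eq_smul, sub_self]
    rw [h8] at h7
    exact (hG.sp_ker w _ _ h7).1 (zero_mem _)
  have hfin : Module.Finite Ω (X.coboundaries (i - w) w) := by
    have := X.fin_E₁ (i - w - 1) w
    unfold StrataData.coboundaries
    infer_instance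
  obtain ⟨y, hy, hy0, hye⟩ := exists_eigen' hfin (cobd_le (X := X) _ _) (by
    rintro _ ⟨z, hz, rfl⟩
    refine ⟨X.frobC q (i - w - 1) z, X.frobC_E₁ hz, ?_⟩
    have := X.diff_frobC hq (i - w - 1) z
    rwa [sub_add_cancel] at this) (hG.sp_mem w v x hx).2.1 h5 h6
  exact DegenerateFibre.weil_E₁ hq h hy hy0 hye

omit [IsAlgClosed Ω] in
lemma V_zero {i : ℕ} (hi : 2 * n < i) (v : X.limit.V i) : v = 0 := by
  have hG := X.weightSequence.graded i
  obtain ⟨s, hs⟩ := hG.W_bot
  obtain ⟨t, ht⟩ := hG.W_top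
  by_contra hv
  have h2 : ¬ v ∈ X.limit.W i s := by
    rw [hs, Submodule.mem_bot]
    exact hv
  have hst : s ≤ t := by
    by_contra hc
    apply h2
    apply hG.W_mono (show t ≤ s by omega)
    rw [ht]
    trivial
  obtain ⟨w, -, -, h3, h4⟩ := P_FRM.step (fun a => v ∈ X.limit.W i a) h2 hst (by rw [ht]; trivial)
  obtain ⟨x, hx⟩ := hG.sp_left w v h3
  apply h4
  rw [hG.sp_ker w v x hx]
  have h5 : x = 0 := by
    funext a
    have h6 := ((hG.sp_mem w v x hx).2.1 a).1
    rw [X.gr_bot (by omega), Submodule.mem_bot] at h6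
    exact h6
  rw [h5]
  exact zero_mem _

/-- Mw purity for all but finitely many values of the valuation. -/
theorem main (hq : 1 < q) (h : X.StrataPure) : ∃ S : Finset ℚ, ∀ (i e v f : ℕ), 0 < e →
    (v / e : ℚ) ∉ S → ∀ κ μ : Ω, IsMWPure (q ^ f) i
      (X.limit.frob i ^ f * (nexp (μ • X.limit.mon i) * nexp (κ • X.limit.N i)))
      ((e : Ω) • X.limit.mon i + (v : Ω) • X.limit.N i) := by
  have hfin := fun i => (X.limitSpace i).finite
  choose S hS using fun i => (hyp hq h i).near (roots hq h i)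
  refine ⟨(Finset.range (2 * n + 1)).biUnion S, fun i e v f he hv κ μ => ?_⟩
  by_cases hi : i ∈ Finset.range (2 * n + 1)
  · apply hS i e v f he _ κ μ
    intro hc
    exact hv (Finset.mem_biUnion.2 ⟨i, hi, hc⟩)
  · have h0 : ∀ v : X.limit.V i, v = 0 := V_zero (by simpa using hi)
    have hall : ∀ (P : Submodule Ω (X.limit.V i)) (x : X.limit.V i), x ∈ P := by
      intro P x
      rw [h0 x]
      exact zero_mem _
    refine ⟨fun _ => ⊥, ⟨fun _ _ _ => le_rfl, ⟨0, rfl⟩, ⟨0, ?_⟩, fun _ _ _ => hall _ _,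
      fun _ _ _ _ => hall _ _, fun _ y _ => ⟨y, hall _ _, hall _ _⟩⟩, fun _ _ _ => hall _ _,
      fun a α x _ hx _ => absurd (hall _ _) hx⟩
    rw [eq_comm, eq_bot_iff]
    intro x _
    exact hall _ _

end Degeneration

end Run7.h307.WM
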