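import Pool.Agent.N184.HK.P_TOM
import Pool.Agent.N184.HK.P_FRM

/-!
# Weight parts of subspaces which are stable under a Frobenius
-/

set_option autoImplicit false

namespace Run7.h307.WM

open Module Pool.Agent.Y143 Pool.Agent.N184.HP Pool.Agent.N184.HK

section

variable {Ω E E' : Type} [Field Ω] [AddCommGroup E] [Module Ω E] [AddCommGroup E']
  [Module Ω E']

/-- Equivariant maps preserve generalized eigenspaces. -/
lemma gen_map {Φ : Module.End Ω E} {Φ' : Module.End Ω E'} {f : E →ₗ[Ω] E'}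
    (hf : ∀ x, f (Φ x) = Φ' (f x)) {α : Ω} {x : E} (hx : x ∈ Φ.maxGenEigenspace α) :
    f x ∈ Φ'.maxGenEigenspace α := by
  rw [Module.End.mem_maxGenEigenspace] at hx ⊢
  obtain ⟨k, hk⟩ := hx
  refine ⟨k, ?_⟩
  have key : ∀ (k : ℕ) (x : E), f (((Φ - α • (1 : Module.End Ω E)) ^ k) x) =
      ((Φ' - α • (1 : Module.End Ω E')) ^ k) (f x) := by
    intro k
    induction k with
    | zero => intro x; simp
    | succ k ih =>
      intro x
      rw [pow_succ, Module.End.mul_apply, ih, pow_succ, Module.End.mul_apply]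
      congr 1
      simp [hf]
  rw [← key, hk, map_zero]

lemma eig_map {Φ : Module.End Ω E} {Φ' : Module.End Ω E'} {f : E →ₗ[Ω] E'}
    (hf : ∀ x, f (Φ x) = Φ' (f x)) {S : Set Ω} {x : E} (hx : x ∈ eig Φ S) : f x ∈ eig Φ' S := by
  have h : eig Φ S ≤ (eig Φ' S).comap f := eig_le fun α hα x hx => le_eig hα (gen_map hf hx)
  exact h hx

lemma mem_eig_disj {Φ : Module.End Ω E} {S : Set Ω} {x : E} (h : x ∈ eig Φ S)
    (h' : x ∈ eig Φ Sᶜ) : x = 0 :=
  Submodule.disjoint_def.1 (eig_disjoint (disjoint_compl_right (a := S))) x h h'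

/-- Decomposition in a finite-dimensional stable subspace. -/
lemma split [IsAlgClosed Ω] {Φ : Module.End Ω E} {Z : Submodule Ω E} (hfin : Module.Finite Ω Z)
    (hZ : ∀ x ∈ Z, Φ x ∈ Z) (S : Set Ω) {x : E} (hx : x ∈ Z) :
    ∃ y z : E, y ∈ Z ∧ y ∈ eig Φ S ∧ z ∈ Z ∧ z ∈ eig Φ Sᶜ ∧ y + z = x := by
  let T : Module.End Ω Z := Φ.restrict hZ
  have hT : ∀ x, Z.subtype (T x) = Φ (Z.subtype x) := fun x => rfl
  have h1 : (⟨x, hx⟩ : Z) ∈ eig T S ⊔ eig T Sᶜ := by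
    rw [eig_sup, Set.union_compl_self, eig_univ]
    trivial
  obtain ⟨y, hy, z, hz, hyz⟩ := Submodule.mem_sup.1 h1
  exact ⟨y, z, y.2, eig_map hT hy, z.2, eig_map hT hz, congrArg Subtype.val hyz⟩

/-- An element of `Z` and of `eig Φ S` is in the image of `eig (Φ|Z) S`. -/
lemma eig_restrict [IsAlgClosed Ω] {Φ : Module.End Ω E} {Z : Submodule Ω E}
    (hfin : Module.Finite Ω Z)
    (hZ : ∀ x ∈ Z, Φ x ∈ Z) (S : Set Ω) {x : E} (hx : x ∈ Z) (hx' : x ∈ eig Φ S) :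
    (⟨x, hx⟩ : Z) ∈ eig (Φ.restrict hZ) S := by
  let T : Module.End Ω Z := Φ.restrict hZ
  have hT : ∀ x, Z.subtype (T x) = Φ (Z.subtype x) := fun x => rfl
  have h1 : (⟨x, hx⟩ : Z) ∈ eig T S ⊔ eig T Sᶜ := by
    rw [eig_sup, Set.union_compl_self, eig_univ]
    trivial
  obtain ⟨y, hy, z, hz, hyz⟩ := Submodule.mem_sup.1 h1
  have h2 : (z : E) = 0 := by
    apply mem_eig_disj (S := S) (Φ := Φ) _ (eig_map hT hz)
    have : (z : E) = x - y := by
      have := congrArg Subtype.val hyz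
      simp only [Submodule.coe_add] at this
      rw [← this]; abel
    change (z : E) ∈ _
    rw [this]
    exact Submodule.sub_mem _ hx' (eig_map hT hy)
  have h3 : z = 0 := Subtype.ext h2
  rw [h3, add_zero] at hyz
  rw [← hyz]
  exact hy

/-- The generalized eigenspace contains an eigenvector. -/
lemma exists_eigenvector {Φ : Module.End Ω E} {Z : Submodule Ω E} (hZ : ∀ x ∈ Z, Φ x ∈ Z) {α : Ω}
    {x : E} (hx : x ∈ Z) (hx0 : x ≠ 0) (h : x ∈ Φ.maxGenEigenspace α) :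
    ∃ y ∈ Z, y ≠ 0 ∧ Φ y = α • y := by
  rw [Module.End.mem_maxGenEigenspace] at h
  obtain ⟨k, hk⟩ := h
  induction k generalizing x with
  | zero => exact absurd (by simpa using hk) hx0
  | succ k ih =>
    rw [pow_succ, Module.End.mul_apply] at hk
    by_cases h0 : (Φ - α • (1 : Module.End Ω E)) x = 0
    · exact ⟨x, hx, hx0, by simpa [sub_eq_zero] using h0⟩
    · refine ih ?_ h0 hk
      simp only [LinearMap.sub_apply, LinearMap.smul_apply, Module.End.one_apply]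
      exact Z.sub_mem (hZ x hx) (Z.smul_mem _ hx)

lemma mem_gen_of_eig {Φ : Module.End Ω E} {α : Ω} {x : E} (hx : x ∈ eig Φ {α}) :
    x ∈ Φ.maxGenEigenspace α := by
  have h : eig Φ {α} ≤ Φ.maxGenEigenspace α := eig_le fun β hβ x hx => by
    rw [Set.mem_singleton_iff] at hβ
    rwa [hβ] at hx
  exact h hx

end

section

variable {Ω E E' : Type} [Field Ω] [CharZero Ω] [AddCommGroup E] [Module Ω E] [AddCommGroup E']
  [Module Ω E'] {q : ℕ}

lemma WS_map {Φ : Module.End Ω E} {Φ' : Module.End Ω E'} {f : E →ₗ[Ω] E'}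
    (hf : ∀ x, f (Φ x) = Φ' (f x)) {v : ℤ} {x : E} (hx : x ∈ WS q Φ v) : f x ∈ WS q Φ' v :=
  eig_map (S := P_TOM.Eq Ω q v) hf hx

/-- The operator `N` lowers the weights by two. -/
lemma N_pow_WS (hq : 1 < q) {Φ N : Module.End Ω E} (hN : ∀ x, N (Φ x) = (q : Ω) • Φ (N x))
    (j : ℕ) {w w' : ℤ} (hw : w' = w - 2 * j) {x : E} (hx : x ∈ WS q Φ w) :
    (N ^ j) x ∈ WS q Φ w' := by
  subst hw
  exact P_FRM.N_pow_W hq hN j w hx

lemma WS_disjoint (hq : 1 < q) {Φ : Module.End Ω E} {v w : ℤ} (h : v ≠ w) {x : E}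
    (hx : x ∈ WS q Φ v) (hx' : x ∈ WS q Φ w) : x = 0 := by
  refine Submodule.disjoint_def.1 (eig_disjoint (S := P_TOM.Eq Ω q v) (S' := P_TOM.Eq Ω q w)
    ?_) x hx hx'
  rw [Set.disjoint_left]
  intro e h1 h2
  exact h (weight_unique hq h1 h2)

/-- The subquotient `Z / B`, with the action of `Φ` and `N`, is mw pure of weight `w`: `N ^ j` is an
isomorphism between the parts of weight `w + j` and `w - j`. -/
structure PureOn (q : ℕ) (w : ℤ) (Φ N : Module.End Ω E) (Z B : Submodule Ω E) : Prop where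
  inj : ∀ (j : ℕ) (x : E), x ∈ Z → x ∈ WS q Φ (w + j) → (N ^ j) x ∈ B → x ∈ B
  surj : ∀ (j : ℕ) (y : E), y ∈ Z → y ∈ WS q Φ (w - j) →
    ∃ x, x ∈ Z ∧ x ∈ WS q Φ (w + j) ∧ y - (N ^ j) x ∈ B

/-- The eigenvalues of `Φ` on `Z` are Weil numbers. -/
def Weighty (q : ℕ) (Φ : Module.End Ω E) (Z : Submodule Ω E) : Prop :=
  ∀ (α : Ω) (x : E), x ∈ Z → x ≠ 0 → x ∈ Φ.maxGenEigenspace α → ∃ w : ℤ, IsWeilNumber q w α

/-- The cohomology of a complex of spaces which are pure of the same weight is pure. -/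
theorem PureOn.homology [IsAlgClosed Ω] (hq : 1 < q) {w : ℤ} {Φ₀ Φ₁ Φ₂ N d₁ d₂ : Module.End Ω E}
    {A B C : Submodule Ω E} (hA : PureOn q w Φ₀ N A ⊥) (hB : PureOn q w Φ₁ N B ⊥)
    (hC : PureOn q w Φ₂ N C ⊥) (hfin : Module.Finite Ω A)
    (hΦA : ∀ x ∈ A, Φ₀ x ∈ A) (h1 : ∀ x ∈ A, d₁ x ∈ B) (h2 : ∀ x ∈ B, d₂ x ∈ C)
    (e1 : ∀ x, d₁ (Φ₀ x) = Φ₁ (d₁ x)) (e2 : ∀ x, d₂ (Φ₁ x) = Φ₂ (d₂ x))
    (n1 : ∀ x, d₁ (N x) = N (d₁ x)) (n2 : ∀ x, d₂ (N x) = N (d₂ x))
    (t1 : ∀ x, N (Φ₁ x) = (q : Ω) • Φ₁ (N x)) :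
    PureOn q w Φ₁ N (B ⊓ LinearMap.ker d₂) (A.map d₁) := by
  have p1 : ∀ (j : ℕ) x, d₁ ((N ^ j) x) = (N ^ j) (d₁ x) := by
    intro j
    induction j with
    | zero => intro x; simp
    | succ j ih => intro x; rw [pow_succ, Module.End.mul_apply, ih, n1, Module.End.mul_apply]
  have p2 : ∀ (j : ℕ) x, d₂ ((N ^ j) x) = (N ^ j) (d₂ x) := by
    intro j
    induction j with
    | zero => intro x; simp
    | succ j ih => intro x; rw [pow_succ, Module.End.mul_apply, ih, n2, Module.End.mul_apply]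
  constructor
  · intro j z hz hzw hNz
    obtain ⟨y, hy, hyz⟩ := hNz
    obtain ⟨y1, y2, hy1, hy1w, hy2, hy2w, hyy⟩ := split hfin hΦA (P_TOM.Eq Ω q (w - j)) hy
    have h3 : (N ^ j) z ∈ WS q Φ₁ (w - j) := N_pow_WS hq t1 j (by ring) hzw
    have h4 : d₁ y2 = 0 := by
      apply mem_eig_disj (S := P_TOM.Eq Ω q (w - j)) (Φ := Φ₁) _ (eig_map e1 hy2w)
      have : d₁ y2 = (N ^ j) z - d₁ y1 := by
        rw [← hyz, ← hyy, map_add]; abel
      rw [this]
      exact Submodule.sub_mem _ h3 (eig_map e1 hy1w)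
    obtain ⟨y', hy', hyw', hyy'⟩ := hA.surj j y1 hy1 hy1w
    rw [Submodule.mem_bot, sub_eq_zero] at hyy'
    have h5 : (N ^ j) (z - d₁ y') = 0 := by
      rw [map_sub, ← p1, ← hyy', ← hyz, ← hyy, map_add, h4, add_zero, sub_self]
    have h6 := hB.inj j (z - d₁ y') (B.sub_mem hz.1 (h1 _ hy'))
      (Submodule.sub_mem _ hzw (WS_map e1 hyw')) (by rw [h5]; exact zero_mem _)
    rw [Submodule.mem_bot, sub_eq_zero] at h6
    exact ⟨y', hy', h6.symm⟩
  · intro j z hz hzw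
    obtain ⟨x, hx, hxw, hzx⟩ := hB.surj j z hz.1 hzw
    rw [Submodule.mem_bot, sub_eq_zero] at hzx
    have h5 := hC.inj j (d₂ x) (h2 _ hx) (WS_map e2 hxw) (by
      rw [← p2, ← hzx]
      have : d₂ z = 0 := hz.2
      rw [this]
      exact zero_mem _)
    exact ⟨x, ⟨hx, h5⟩, hxw, by rw [hzx, sub_self]; exact zero_mem _⟩

/-- Purity passes through an isomorphism of subquotients given by its graph. -/
theorem PureOn.graph [IsAlgClosed Ω] {w : ℤ} {Φ N : Module.End Ω E}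
    {Φ' N' : Module.End Ω E'} {S : Submodule Ω (E × E')} {W W' : Submodule Ω E}
    {Z B : Submodule Ω E'} (h : PureOn q w Φ' N' Z B) (hfin : Module.Finite Ω S)
    (hS : ∀ v x, (v, x) ∈ S → v ∈ W ∧ x ∈ Z) (hl : ∀ v, v ∈ W → ∃ x, (v, x) ∈ S)
    (hr : ∀ x, x ∈ Z → ∃ v, (v, x) ∈ S) (hk : ∀ v x, (v, x) ∈ S → (v ∈ W' ↔ x ∈ B))
    (hΦ : ∀ v x, (v, x) ∈ S → (Φ v, Φ' x) ∈ S) (hN : ∀ v x, (v, x) ∈ S → (N v, N' x) ∈ S) :
    PureOn q w Φ N W W' := by
  let T : Module.End Ω (E × E') := Φ.prodMap Φ'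
  have hT : ∀ x ∈ S, T x ∈ S := fun x hx => hΦ x.1 x.2 hx
  have hfst : ∀ x, LinearMap.fst Ω E E' (T x) = Φ (LinearMap.fst Ω E E' x) := fun x => rfl
  have hsnd : ∀ x, LinearMap.snd Ω E E' (T x) = Φ' (LinearMap.snd Ω E E' x) := fun x => rfl
  have hNp : ∀ (j : ℕ) v x, (v, x) ∈ S → ((N ^ j) v, (N' ^ j) x) ∈ S := by
    intro j
    induction j with
    | zero => intro v x hvx; simpa using hvx
    | succ j ih =>
      intro v x hvx
      rw [pow_succ', pow_succ', Module.End.mul_apply, Module.End.mul_apply]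
      exact hN _ _ (ih v x hvx)
  -- lifting from the left and from the right
  have key1 : ∀ (u : ℤ) v, v ∈ W → v ∈ WS q Φ u → ∃ x, (v, x) ∈ S ∧ x ∈ WS q Φ' u := by
    intro u v hv hvu
    obtain ⟨x, hx⟩ := hl v hv
    obtain ⟨a, b, ha, hau, hb, hbu, hab⟩ := split hfin hT (P_TOM.Eq Ω q u) hx
    have h1 : b.1 = 0 := by
      apply mem_eig_disj (S := P_TOM.Eq Ω q u) (Φ := Φ) _ (eig_map hfst hbu)
      have : b.1 = v - a.1 := by
        have := congrArg Prod.fst hab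
        simp only [Prod.fst_add] at this
        rw [← this]; abel
      change b.1 ∈ _
      rw [this]
      exact Submodule.sub_mem _ hvu (eig_map hfst hau)
    refine ⟨a.2, ?_, eig_map hsnd hau⟩
    have h2 : a.1 = v := by
      have := congrArg Prod.fst hab
      simp only [Prod.fst_add, h1, add_zero] at this
      exact this
    have : (v, a.2) = a := by rw [← h2]
    rw [this]
    exact ha
  have key2 : ∀ (u : ℤ) x, x ∈ Z → x ∈ WS q Φ' u → ∃ v, (v, x) ∈ S ∧ v ∈ WS q Φ u := by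
    intro u x hx hxu
    obtain ⟨v, hv⟩ := hr x hx
    obtain ⟨a, b, ha, hau, hb, hbu, hab⟩ := split hfin hT (P_TOM.Eq Ω q u) hv
    have h1 : b.2 = 0 := by
      apply mem_eig_disj (S := P_TOM.Eq Ω q u) (Φ := Φ') _ (eig_map hsnd hbu)
      have : b.2 = x - a.2 := by
        have := congrArg Prod.snd hab
        simp only [Prod.snd_add] at this
        rw [← this]; abel
      change b.2 ∈ _
      rw [this]
      exact Submodule.sub_mem _ hxu (eig_map hsnd hau)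
    refine ⟨a.1, ?_, eig_map hfst hau⟩
    have h2 : a.2 = x := by
      have := congrArg Prod.snd hab
      simp only [Prod.snd_add, h1, add_zero] at this
      exact this
    have : (a.1, x) = a := by rw [← h2]
    rw [this]
    exact ha
  constructor
  · intro j v hv hvw hNv
    obtain ⟨x, hx, hxw⟩ := key1 _ v hv hvw
    have h1 := (hk _ _ (hNp j v x hx)).1 hNv
    exact (hk _ _ hx).2 (h.inj j x (hS _ _ hx).2 hxw h1)
  · intro j v hv hvw
    obtain ⟨x, hx, hxw⟩ := key1 _ v hv hvw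
    obtain ⟨y, hy, hyw, hxy⟩ := h.surj j x (hS _ _ hx).2 hxw
    obtain ⟨u, hu, huw⟩ := key2 _ y hy hyw
    refine ⟨u, (hS _ _ hu).1, huw, ?_⟩
    have h3 : (v - (N ^ j) u, x - (N' ^ j) y) ∈ S := Submodule.sub_mem _ hx (hNp j u y hu)
    exact (hk _ _ h3).2 hxy

end

end Run7.h307.WM
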